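import Mathlib

set_option autoImplicit false

namespace Pool.Agent.P.MP_3a8f7c_lc

/-- A family of languages over all finite alphabets is a rational cone if it is closed under
morphisms, inverse morphisms and intersection with regular languages. The morphism given on
letters by `h` sends the word `u` to `u.flatMap h`. -/
def IsCone (C : ∀ (A : Type) [Finite A], Set (Language A)) : Prop :=
  (∀ (A B : Type) [Finite A] [Finite B] (h : A → List B) (L : Language A),
      L ∈ C A → ({w | ∃ u ∈ L, u.flatMap h = w} : Language B) ∈ C B) ∧
  (∀ (A B : Type) [Finite A] [Finite B] (h : A → List B) (L : Language B),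
      L ∈ C B → ({u | u.flatMap h ∈ L} : Language A) ∈ C A) ∧
  (∀ (A : Type) [Finite A] (L R : Language A), L ∈ C A → R.IsRegular → L ⊓ R ∈ C A)

/-- The smallest rational cone containing `L`. -/
def cone {A : Type} [Finite A] (L : Language A) (B : Type) [Finite B] : Set (Language B) :=
  {K | ∀ C : ∀ (A : Type) [Finite A], Set (Language A), IsCone C → L ∈ C A → K ∈ C B}

/-- `L` is contained in `w₁^* ⋯ w_k^*` for some words `w₁, …, w_k`. -/
def BoundedOfDegree {A : Type} (k : ℕ) (L : Language A) : Prop :=
  ∃ w : Fin k → List A, ∀ u ∈ L, ∃ n : Fin k → ℕ,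
    u = (List.ofFn fun i => (List.replicate (n i) (w i)).flatten).flatten

/-- Every bounded language of degree `k` in `C` is regular or generates `C`. -/
def MinimalForDegree (C : ∀ (A : Type) [Finite A], Set (Language A)) (k : ℕ) : Prop :=
  ∀ (A : Type) [Finite A] (L : Language A), L ∈ C A → BoundedOfDegree k L →
    L.IsRegular ∨ ∀ (B : Type) [Finite B], cone L B = C B

/-- The language of the words `a^m b^n` with `r n m`, where `a = 0` and `b = 1`. -/
def sLang (r : ℕ → ℕ → Prop) : Language (Fin 2) :=
  {w | ∃ m n : ℕ, r n m ∧ w = List.replicate m 0 ++ List.replicate n 1}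

end Pool.Agent.P.MP_3a8f7c_lc
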