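import Pool.Agent.P.MP_3a8f7c_lc.Defs

set_option autoImplicit false

namespace Pool.Agent.P.MP_3a8f7c_lc

/-- paths of a weighted automaton with empty moves -/
inductive Path {Q B : Type} (E : Q → Option B → ℕ → Q → Prop) : Q → List B → ℕ → Q → Prop
  | nil (q : Q) : Path E q [] 0 q
  | eps {p p' q : Q} {w s : ℕ} {u : List B} :
      E p none w p' → Path E p' u s q → Path E p u (w + s) q
  | sym {p p' q : Q} {w s : ℕ} {b : B} {u : List B} :
      E p (some b) w p' → Path E p' u s q → Path E p (b :: u) (w + s) q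

lemma Path.trans {Q B : Type} {E : Q → Option B → ℕ → Q → Prop} {p r q : Q} {u v : List B}
    {s t : ℕ} (h1 : Path E p u s r) (h2 : Path E r v t q) : Path E p (u ++ v) (s + t) q := by
  induction h1 with
  | nil q => simpa using h2
  | eps he _ ih => rw [add_assoc]; exact Path.eps he (ih h2)
  | sym he _ ih => rw [add_assoc]; exact Path.sym he (ih h2)

lemma Path.split {Q B : Type} {E : Q → Option B → ℕ → Q → Prop} {p q : Q} {z : List B}
    {s : ℕ} (h : Path E p z s q) : ∀ u v : List B, z = u ++ v →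
      ∃ r s1 s2, Path E p u s1 r ∧ Path E r v s2 q ∧ s = s1 + s2 := by
  induction h with
  | nil q =>
    intro u v huv
    obtain ⟨rfl, rfl⟩ := List.nil_eq_append_iff.mp huv
    exact ⟨q, 0, 0, Path.nil q, Path.nil q, rfl⟩
  | eps he _ ih =>
    intro u v huv
    obtain ⟨r, s1, s2, h1, h2, rfl⟩ := ih u v huv
    exact ⟨r, _, s2, Path.eps he h1, h2, by ring⟩
  | @sym p p' q w s b z he hp ih =>
    intro u v huv
    rcases u with _ | ⟨c, u⟩
    · simp only [List.nil_append] at huv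
      subst huv
      exact ⟨p, 0, w + s, Path.nil p, Path.sym he hp, by ring⟩
    · simp only [List.cons_append, List.cons.injEq] at huv
      obtain ⟨rfl, huv⟩ := huv
      obtain ⟨r, s1, s2, h1, h2, rfl⟩ := ih u v huv
      exact ⟨r, _, s2, Path.sym he h1, h2, by ring⟩

lemma Path.mem {Q B : Type} {E : Q → Option B → ℕ → Q → Prop} {X : Set Q}
    (hX : ∀ p o w p', p ∈ X → E p o w p' → p' ∈ X) {p q : Q} {z : List B}
    {s : ℕ} (h : Path E p z s q) : p ∈ X → q ∈ X := by
  induction h with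
  | nil q => exact id
  | eps he _ ih => exact fun hp => ih (hX _ _ _ _ hp he)
  | sym he _ ih => exact fun hp => ih (hX _ _ _ _ hp he)

/-- languages accepted by a finite weighted automaton with total weight in `S` -/
def DD (S : Set ℕ) (B : Type) [Finite B] : Set (Language B) :=
  {K | ∃ (Q : Type) (E : Q → Option B → ℕ → Q → Prop) (i : Q) (F X : Set Q),
    X.Finite ∧ i ∈ X ∧ (∀ p o w p', p ∈ X → E p o w p' → p' ∈ X) ∧
    (∀ p o w p', E p o w p' → w ≤ 1) ∧
    ∀ u, u ∈ K ↔ ∃ f ∈ F, ∃ s ∈ S, Path E i u s f}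

lemma exists_len_bound {A B : Type} [Finite A] (h : A → List B) :
    ∃ m, ∀ a, (h a).length ≤ m := by
  obtain ⟨M, hM⟩ := (Set.finite_range (fun a => (h a).length)).bddAbove
  exact ⟨M, fun a => hM ⟨a, rfl⟩⟩

/-- edges for the morphic image -/
def imE {Q A B : Type} (E : Q → Option A → ℕ → Q → Prop) (h : A → List B) :
    Q × List B → Option B → ℕ → Q × List B → Prop
  | x, none, w, y => x.2 = [] ∧ ((E x.1 none w y.1 ∧ y.2 = []) ∨
      ∃ a, E x.1 (some a) w y.1 ∧ y.2 = h a)
  | x, some b, w, y => w = 0 ∧ y.1 = x.1 ∧ x.2 = b :: y.2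

lemma imE_flush {Q A B : Type} (E : Q → Option A → ℕ → Q → Prop) (h : A → List B) (p : Q)
    (β : List B) : Path (imE E h) (p, β) β 0 (p, []) := by
  induction β with
  | nil => exact Path.nil _
  | cons b β ih =>
    have := Path.sym (E := imE E h) (p := (p, b :: β)) (p' := (p, β)) (w := 0) (b := b)
      ⟨rfl, rfl, rfl⟩ ih
    simpa using this

lemma imE_of {Q A B : Type} {E : Q → Option A → ℕ → Q → Prop} (h : A → List B) {p q : Q}
    {u : List A} {s : ℕ} (hp : Path E p u s q) :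
    Path (imE E h) (p, []) (u.flatMap h) s (q, []) := by
  induction hp with
  | nil q => exact Path.nil _
  | @eps p p' q w s u he _ ih =>
    exact Path.eps (p' := (p', [])) ⟨rfl, Or.inl ⟨he, rfl⟩⟩ ih
  | @sym p p' q w s b u he _ ih =>
    have h1 := (imE_flush E h p' (h b)).trans ih
    rw [zero_add] at h1
    rw [List.flatMap_cons]
    exact Path.eps (p' := (p', h b)) ⟨rfl, Or.inr ⟨b, he, rfl⟩⟩ h1

lemma imE_to {Q A B : Type} {E : Q → Option A → ℕ → Q → Prop} (h : A → List B)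
    {x y : Q × List B} {v : List B} {s : ℕ} (hp : Path (imE E h) x v s y) (hy : y.2 = []) :
    ∃ u, Path E x.1 u s y.1 ∧ v = x.2 ++ u.flatMap h := by
  induction hp with
  | nil q => exact ⟨[], Path.nil _, by simp [hy]⟩
  | eps he _ ih =>
    obtain ⟨u, hu, rfl⟩ := ih hy
    obtain ⟨h1, ⟨h2, h3⟩ | ⟨a, h2, h3⟩⟩ := he
    · exact ⟨u, Path.eps h2 hu, by rw [h1, h3]⟩
    · exact ⟨a :: u, Path.sym h2 hu, by rw [h1, h3]; simp⟩
  | sym he _ ih =>
    obtain ⟨u, hu, rfl⟩ := ih hy
    obtain ⟨rfl, h2, h3⟩ := he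
    rw [h2] at hu
    exact ⟨u, by simpa using hu, by rw [h3]; simp⟩

/-- edges for the inverse image -/
def invE {Q A B : Type} (E : Q → Option B → ℕ → Q → Prop) (h : A → List B) :
    Q × List B → Option A → ℕ → Q × List B → Prop
  | x, none, w, y => (E x.1 none w y.1 ∧ y.2 = x.2) ∨ ∃ b, E x.1 (some b) w y.1 ∧ x.2 = b :: y.2
  | x, some a, w, y => x.2 = [] ∧ w = 0 ∧ y.1 = x.1 ∧ y.2 = h a

lemma invE_to {Q A B : Type} {E : Q → Option B → ℕ → Q → Prop} (h : A → List B)
    {x y : Q × List B} {u : List A} {s : ℕ} (hp : Path (invE E h) x u s y) (hy : y.2 = []) :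
    Path E x.1 (x.2 ++ u.flatMap h) s y.1 := by
  induction hp with
  | nil q => simpa [hy] using Path.nil _
  | eps he _ ih =>
    have := ih hy
    obtain ⟨h2, h3⟩ | ⟨b, h2, h3⟩ := he
    · rw [h3] at this; exact Path.eps h2 this
    · rw [h3]; exact Path.sym h2 this
  | sym he _ ih =>
    have := ih hy
    obtain ⟨h1, rfl, h2, h3⟩ := he
    rw [h2, h3] at this
    rw [h1]
    simpa using this

lemma invE_of {Q A B : Type} {E : Q → Option B → ℕ → Q → Prop} (h : A → List B) {p q : Q}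
    {v : List B} {s : ℕ} (hp : Path E p v s q) : ∀ (β : List B) (u : List A),
      v = β ++ u.flatMap h → Path (invE E h) (p, β) u s (q, []) := by
  induction hp with
  | nil q =>
    intro β u hv
    obtain ⟨rfl, hu⟩ := List.nil_eq_append_iff.mp hv
    clear hv
    induction u with
    | nil => exact Path.nil _
    | cons a u ih =>
      rw [List.flatMap_cons, List.append_eq_nil_iff] at hu
      have := Path.sym (E := invE E h) (p := (q, [])) (p' := (q, [])) (w := 0) (b := a)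
        ⟨rfl, rfl, rfl, hu.1.symm⟩ (ih hu.2)
      simpa using this
  | @eps p p' q w s v he _ ih =>
    intro β u hv
    exact Path.eps (p' := (p', β)) (Or.inl ⟨he, rfl⟩) (ih β u hv)
  | @sym p p' q w s b v he _ ih =>
    intro β u hv
    rcases β with _ | ⟨c, β⟩
    · induction u with
      | nil => simp at hv
      | cons a u ihu =>
        rw [List.nil_append, List.flatMap_cons] at hv
        have key : Path (invE E h) (p, h a) u (w + s) (q, []) := by
          rcases hha : h a with _ | ⟨c, γ⟩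
          · rw [hha] at hv
            exact ihu hv
          · rw [hha, List.cons_append, List.cons.injEq] at hv
            obtain ⟨rfl, hv⟩ := hv
            exact Path.eps (p' := (p', γ)) (Or.inr ⟨b, he, rfl⟩) (ih γ u hv)
        have := Path.sym (E := invE E h) (p := (p, [])) (p' := (p, h a)) (w := 0) (b := a)
          ⟨rfl, rfl, rfl, rfl⟩ key
        simpa using this
    · rw [List.cons_append, List.cons.injEq] at hv
      obtain ⟨rfl, hv⟩ := hv
      exact Path.eps (p' := (p', β)) (Or.inr ⟨b, he, rfl⟩) (ih β u hv)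

/-- edges for the product with a deterministic automaton -/
def prE {Q B σ : Type} (E : Q → Option B → ℕ → Q → Prop) (M : DFA B σ) :
    Q × σ → Option B → ℕ → Q × σ → Prop
  | x, none, w, y => E x.1 none w y.1 ∧ y.2 = x.2
  | x, some b, w, y => E x.1 (some b) w y.1 ∧ y.2 = M.step x.2 b

lemma prE_to {Q B σ : Type} {E : Q → Option B → ℕ → Q → Prop} (M : DFA B σ)
    {x y : Q × σ} {u : List B} {s : ℕ} (hp : Path (prE E M) x u s y) :
    Path E x.1 u s y.1 ∧ y.2 = M.evalFrom x.2 u := by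
  induction hp with
  | nil q => exact ⟨Path.nil _, rfl⟩
  | eps he _ ih => exact ⟨Path.eps he.1 ih.1, by rw [ih.2, he.2]⟩
  | sym he _ ih => exact ⟨Path.sym he.1 ih.1, by rw [ih.2, he.2]; rfl⟩

lemma prE_of {Q B σ : Type} {E : Q → Option B → ℕ → Q → Prop} (M : DFA B σ) {p q : Q}
    {u : List B} {s : ℕ} (hp : Path E p u s q) :
    ∀ a : σ, Path (prE E M) (p, a) u s (q, M.evalFrom a u) := by
  induction hp with
  | nil q => exact fun a => Path.nil _
  | @eps p p' q w s u he _ ih => exact fun a => Path.eps (p' := (p', a)) ⟨he, rfl⟩ (ih a)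
  | @sym p p' q w s b u he _ ih =>
    exact fun a => Path.sym (p' := (p', M.step a b)) ⟨he, rfl⟩ (ih _)

theorem dd_isCone (S : Set ℕ) : IsCone (DD S) := by
  refine ⟨?_, ?_, ?_⟩
  · rintro A B _ _ h L ⟨Q, E, i, F, X, hX, hi, hcl, hw, hL⟩
    obtain ⟨m, hm⟩ := exists_len_bound h
    refine ⟨Q × List B, imE E h, (i, []), F ×ˢ {[]}, X ×ˢ {l | l.length ≤ m},
      hX.prod (List.finite_length_le B m), ⟨hi, by simp⟩, ?_, ?_, ?_⟩
    · rintro x o w y ⟨hx1, hx2⟩ he
      rcases o with _ | b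
      · obtain ⟨_, ⟨h2, h3⟩ | ⟨a, h2, h3⟩⟩ := he
        · exact ⟨hcl _ _ _ _ hx1 h2, by simp [h3]⟩
        · exact ⟨hcl _ _ _ _ hx1 h2, by simpa [h3] using hm a⟩
      · obtain ⟨_, h2, h3⟩ := he
        refine ⟨h2 ▸ hx1, ?_⟩
        simp only [Set.mem_setOf_eq, h3, List.length_cons] at hx2 ⊢
        omega
    · rintro x o w y he
      rcases o with _ | b
      · obtain ⟨_, ⟨h2, _⟩ | ⟨a, h2, _⟩⟩ := he
        · exact hw _ _ _ _ h2
        · exact hw _ _ _ _ h2
      · rw [he.1]; omega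
    · intro v
      constructor
      · rintro ⟨u, hu, rfl⟩
        obtain ⟨f, hf, s, hs, hp⟩ := (hL u).mp hu
        exact ⟨(f, []), ⟨hf, rfl⟩, s, hs, imE_of h hp⟩
      · rintro ⟨y, ⟨hy1, hy2⟩, s, hs, hp⟩
        obtain ⟨u, hu, rfl⟩ := imE_to h hp hy2
        exact ⟨u, (hL u).mpr ⟨_, hy1, s, hs, hu⟩, by simp⟩
  · rintro A B _ _ h L ⟨Q, E, i, F, X, hX, hi, hcl, hw, hL⟩
    obtain ⟨m, hm⟩ := exists_len_bound h
    refine ⟨Q × List B, invE E h, (i, []), F ×ˢ {[]}, X ×ˢ {l | l.length ≤ m},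
      hX.prod (List.finite_length_le B m), ⟨hi, by simp⟩, ?_, ?_, ?_⟩
    · rintro x o w y ⟨hx1, hx2⟩ he
      rcases o with _ | a
      · obtain ⟨h2, h3⟩ | ⟨b, h2, h3⟩ := he
        · exact ⟨hcl _ _ _ _ hx1 h2, by simpa [h3] using hx2⟩
        · refine ⟨hcl _ _ _ _ hx1 h2, ?_⟩
          simp only [Set.mem_setOf_eq, h3, List.length_cons] at hx2 ⊢
          omega
      · obtain ⟨_, _, h2, h3⟩ := he
        exact ⟨h2 ▸ hx1, by simpa [h3] using hm a⟩
    · rintro x o w y he
      rcases o with _ | a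
      · obtain ⟨h2, _⟩ | ⟨b, h2, _⟩ := he
        · exact hw _ _ _ _ h2
        · exact hw _ _ _ _ h2
      · rw [he.2.1]; omega
    · intro u
      change u.flatMap h ∈ L ↔ _
      rw [hL]
      constructor
      · rintro ⟨f, hf, s, hs, hp⟩
        exact ⟨(f, []), ⟨hf, rfl⟩, s, hs, invE_of h hp [] u (by simp)⟩
      · rintro ⟨y, ⟨hy1, hy2⟩, s, hs, hp⟩
        exact ⟨y.1, hy1, s, hs, by simpa using invE_to h hp hy2⟩
  · rintro A _ L R ⟨Q, E, i, F, X, hX, hi, hcl, hw, hL⟩ ⟨σ, hσ, M, rfl⟩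
    refine ⟨Q × σ, prE E M, (i, M.start), F ×ˢ M.accept, X ×ˢ Set.univ,
      hX.prod Set.finite_univ, ⟨hi, trivial⟩, ?_, ?_, ?_⟩
    · rintro x o w y ⟨hx1, _⟩ he
      rcases o with _ | a
      · exact ⟨hcl _ _ _ _ hx1 he.1, trivial⟩
      · exact ⟨hcl _ _ _ _ hx1 he.1, trivial⟩
    · rintro x o w y he
      rcases o with _ | a
      · exact hw _ _ _ _ he.1
      · exact hw _ _ _ _ he.1
    · intro u
      change (u ∈ L ∧ M.eval u ∈ M.accept) ↔ _
      rw [hL]
      constructor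
      · rintro ⟨⟨f, hf, s, hs, hp⟩, ha⟩
        exact ⟨(f, M.eval u), ⟨hf, ha⟩, s, hs, prE_of M hp _⟩
      · rintro ⟨y, ⟨hy1, hy2⟩, s, hs, hp⟩
        obtain ⟨h1, h2⟩ := prE_to M hp
        exact ⟨⟨_, hy1, s, hs, h1⟩, by rw [h2] at hy2; exact hy2⟩

/-- words whose length lies in `S` -/
def lenLang (S : Set ℕ) (B : Type) : Language B := {u | u.length ∈ S}

lemma lenLang_mem_dd (S : Set ℕ) (B : Type) [Finite B] : lenLang S B ∈ DD S B := by
  refine ⟨Unit, fun _ o w _ => o ≠ none ∧ w = 1, (), Set.univ, Set.univ, Set.finite_univ, trivial,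
    fun _ _ _ _ _ _ => trivial, fun _ _ _ _ h => h.2.le, fun u => ?_⟩
  have k1 : ∀ (p q : Unit) (u : List B) (s : ℕ),
      Path (fun (_ : Unit) (o : Option B) w (_ : Unit) => o ≠ none ∧ w = 1) p u s q →
        s = u.length := by
    intro p q u s hp
    induction hp with
    | nil q => rfl
    | eps he _ _ => exact absurd rfl he.1
    | sym he _ ih => rw [he.2, ih, List.length_cons]; ring
  have k2 : ∀ u : List B,
      Path (fun (_ : Unit) (o : Option B) w (_ : Unit) => o ≠ none ∧ w = 1) () u u.length () := by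
    intro u
    induction u with
    | nil => exact Path.nil _
    | cons b u ih =>
      rw [List.length_cons, add_comm]
      exact Path.sym (p' := ()) ⟨by simp, rfl⟩ ih
  constructor
  · intro hu
    exact ⟨(), trivial, _, hu, k2 u⟩
  · rintro ⟨f, _, s, hs, hp⟩
    rw [k1 _ _ _ _ hp] at hs
    exact hs

lemma regular_of_dd {B : Type} [Finite B] {L : Language B} (h : L ∈ DD Set.univ B) :
    L.IsRegular := by
  obtain ⟨Q, E, i, F, X, hX, hi, hcl, hw, hL⟩ := h
  apply Language.IsRegular.of_finite_range_leftQuotient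
  refine (hX.powerset.image (fun Y : Set Q =>
    ({v | ∃ r ∈ Y, ∃ f ∈ F, ∃ s, Path E r v s f} : Language B))).subset ?_
  rintro _ ⟨u, rfl⟩
  refine ⟨{r | ∃ s, Path E i u s r}, ?_, ?_⟩
  · rintro r ⟨s, hs⟩
    exact hs.mem hcl hi
  · ext v
    change _ ↔ u ++ v ∈ L
    rw [hL]
    constructor
    · rintro ⟨r, ⟨s1, h1⟩, f, hf, s2, h2⟩
      exact ⟨f, hf, _, trivial, h1.trans h2⟩
    · rintro ⟨f, hf, s, _, hp⟩
      obtain ⟨r, s1, s2, h1, h2, _⟩ := hp.split u v rfl
      exact ⟨r, ⟨s1, h1⟩, f, hf, s2, h2⟩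

lemma regular_image {A B : Type} [Finite A] [Finite B] (h : A → List B) {L : Language A}
    (hL : L.IsRegular) : Language.IsRegular ({w | ∃ u ∈ L, u.flatMap h = w} : Language B) := by
  apply regular_of_dd
  apply (dd_isCone Set.univ).1
  have := (dd_isCone Set.univ).2.2 A _ L (lenLang_mem_dd Set.univ A) hL
  have e : lenLang Set.univ A ⊓ L = L := by
    ext u
    change (u.length ∈ Set.univ ∧ u ∈ L) ↔ _
    simp
  rwa [e] at this

end Pool.Agent.P.MP_3a8f7c_lc
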