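import Mathlib

set_option autoImplicit false

namespace Pool.Agent.P.MP_3a8f7c_lc

open Nat

/-- the residue class modulo `n !` that is zero on the even part and one on the odd part -/
def ZZ (n s : ℕ) : Prop :=
  (∀ a, 2 ^ a ∣ n ! → 2 ^ a ∣ s) ∧ ∀ m, Odd m → m ∣ n ! → s ≡ 1 [MOD m]

/-- thresholds -/
def TT (n : ℕ) : ℕ := 2 * n * n ! + n

/-- the generating set of lengths -/
def SS : Set ℕ := {s | ∀ n, TT n ≤ s → ZZ n s}

lemma ZZ.mono {n m s : ℕ} (hnm : n ≤ m) (h : ZZ m s) : ZZ n s :=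
  ⟨fun a ha => h.1 a (ha.trans (factorial_dvd_factorial hnm)),
    fun k hk hd => h.2 k hk (hd.trans (factorial_dvd_factorial hnm))⟩

lemma ZZ.inv {n s s' : ℕ} (h : ZZ n s) (hs : s ≡ s' [MOD n !]) : ZZ n s' :=
  ⟨fun a ha => ((hs.of_dvd ha).dvd_iff dvd_rfl).mp (h.1 a ha),
    fun k hk hd => (hs.of_dvd hd).symm.trans (h.2 k hk hd)⟩

lemma ZZ.uniq {n s s' : ℕ} (h : ZZ n s) (h' : ZZ n s') : s ≡ s' [MOD n !] := by
  obtain ⟨a, m, hm, e⟩ := Nat.exists_eq_two_pow_mul_odd (factorial_ne_zero n)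
  have hc : Nat.Coprime (2 ^ a) m := Nat.Coprime.pow_left _ (Nat.coprime_two_left.mpr hm)
  have h1 : 2 ^ a ∣ n ! := e ▸ dvd_mul_right _ _
  have h2 : m ∣ n ! := e ▸ dvd_mul_left _ _
  rw [e, ← Nat.modEq_and_modEq_iff_modEq_mul hc]
  exact ⟨(Nat.modEq_zero_iff_dvd.mpr (h.1 a h1)).trans
    (Nat.modEq_zero_iff_dvd.mpr (h'.1 a h1)).symm, (h.2 m hm h2).trans (h'.2 m hm h2).symm⟩

lemma exists_ZZ (n : ℕ) : ∃ s, ZZ n s := by
  obtain ⟨a, m, hm, e⟩ := Nat.exists_eq_two_pow_mul_odd (factorial_ne_zero n)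
  have hc : Nat.Coprime (2 ^ a) m := Nat.Coprime.pow_left _ (Nat.coprime_two_left.mpr hm)
  obtain ⟨s, h1, h2⟩ := Nat.chineseRemainder hc 0 1
  refine ⟨s, fun b hb => ?_, fun k hk hd => ?_⟩
  · rw [e] at hb
    have hc' : Nat.Coprime (2 ^ b) m := Nat.Coprime.pow_left _ (Nat.coprime_two_left.mpr hm)
    exact (hc'.dvd_of_dvd_mul_right hb).trans (Nat.modEq_zero_iff_dvd.mp h1)
  · rw [e] at hd
    have hc' : Nat.Coprime k (2 ^ a) :=
      (Nat.Coprime.pow_left _ (Nat.coprime_two_left.mpr hk)).symm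
    exact h2.of_dvd (hc'.dvd_of_dvd_mul_left hd)

lemma ZZ_irr (B : ℕ) : ∃ n, ∀ s s', ZZ n s → ZZ n s' → ∀ (a b : ℕ) (E : ℤ), a ≤ B → b ≤ B →
    |E| ≤ B → (a : ℤ) * s = b * s' + E → a = b ∧ E = 0 := by
  refine ⟨2 ^ B + (2 * B + 1), fun s s' h h' a b E ha hb hE e => ?_⟩
  have hp : 0 < 2 ^ B := by positivity
  have d1 : 2 ^ B ∣ (2 ^ B + (2 * B + 1))! := dvd_factorial hp (by omega)
  have d2 : 2 * B + 1 ∣ (2 ^ B + (2 * B + 1))! := dvd_factorial (by omega) (by omega)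
  have hE0 : E = 0 := by
    have k1 : ((2 ^ B : ℕ) : ℤ) ∣ s := Int.natCast_dvd_natCast.mpr (h.1 B d1)
    have k2 : ((2 ^ B : ℕ) : ℤ) ∣ s' := Int.natCast_dvd_natCast.mpr (h'.1 B d1)
    have k3 : ((2 ^ B : ℕ) : ℤ) ∣ E := by
      have : E = a * s - b * s' := by linarith
      rw [this]
      exact dvd_sub (k1.mul_left _) (k2.mul_left _)
    apply Int.eq_zero_of_abs_lt_dvd k3
    have : B < 2 ^ B := Nat.lt_two_pow_self
    omega
  refine ⟨?_, hE0⟩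
  subst hE0
  have e' : a * s = b * s' := by
    rw [add_zero] at e
    exact_mod_cast e
  have k1 := (h.2 _ (odd_two_mul_add_one B) d2).mul_left a
  have k2 := (h'.2 _ (odd_two_mul_add_one B) d2).mul_left b
  rw [e', mul_one] at k1
  rw [mul_one] at k2
  exact (k1.symm.trans k2).eq_of_lt_of_lt (by omega) (by omega)

lemma exists_modEq_Ico (M t s0 : ℕ) (hM : 0 < M) : ∃ s, t ≤ s ∧ s < t + M ∧ s0 ≡ s [MOD M] := by
  obtain ⟨M, rfl⟩ : ∃ M', M = M' + 1 := ⟨M - 1, by omega⟩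
  refine ⟨t + (s0 + M * t) % (M + 1), by omega, by have := Nat.mod_lt (s0 + M * t) (Nat.succ_pos M); simp only [Nat.succ_eq_add_one] at this; omega, ?_⟩
  have h1 : t + (s0 + M * t) % (M + 1) ≡ t + (s0 + M * t) [MOD M + 1] :=
    (Nat.mod_modEq _ _).add_left t
  have h2 : t + (s0 + M * t) = s0 + (M + 1) * t := by ring
  rw [h2] at h1
  exact (h1.trans (by simp [Nat.ModEq])).symm

lemma le_TT (n : ℕ) : n ≤ TT n := by unfold TT; omega

lemma TT_mono {n m : ℕ} (h : n ≤ m) : TT n ≤ TT m := by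
  unfold TT
  have := factorial_le h
  gcongr

lemma SS_dense (m C : ℕ) : ∃ N, ∀ lo L, N ≤ L → lo + L ≤ C * L →
    ∃ s ∈ SS, lo ≤ s ∧ s ≤ lo + L ∧ m ≤ s := by
  classical
  refine ⟨TT (C + 1) + 2 * m, fun lo L hL hC => ?_⟩
  set j := Nat.findGreatest (fun j => TT j ≤ lo + L) (lo + L) with hj
  have hmax : ∀ n, TT n ≤ lo + L → n ≤ j := fun n hn =>
    Nat.le_findGreatest ((le_TT n).trans hn) hn
  have hCj : C + 1 ≤ j := hmax _ (by omega)
  have hTj : TT j ≤ lo + L :=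
    Nat.findGreatest_spec (P := fun j => TT j ≤ lo + L) (Nat.zero_le _) (by simp [TT])
  have hfac : 2 * j ! ≤ L := by
    have h1 : j * (2 * j !) ≤ j * L := by
      have : C * L ≤ j * L := Nat.mul_le_mul_right _ (by omega)
      unfold TT at hTj
      nlinarith
    exact Nat.le_of_mul_le_mul_left h1 (by omega)
  obtain ⟨s0, hs0⟩ := exists_ZZ j
  obtain ⟨s, h1, h2, h3⟩ := exists_modEq_Ico (j !) (lo + L - j !) s0 (factorial_pos j)
  refine ⟨s, fun n hn => (hs0.inv h3).mono (hmax n (by omega)), by omega, by omega, by omega⟩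

lemma SS_large (m : ℕ) : ∃ s ∈ SS, m ≤ s := by
  obtain ⟨N, hN⟩ := SS_dense m 1
  obtain ⟨s, hs, -, -, h⟩ := hN 0 N le_rfl (by omega)
  exact ⟨s, hs, h⟩

end Pool.Agent.P.MP_3a8f7c_lc
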