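import Pool.Agent.P.MP_3a8f7c_lc.Lin
import Pool.Agent.P.MP_3a8f7c_lc.SetS

set_option autoImplicit false

namespace Pool.Agent.P.MP_3a8f7c_lc

open Filter Nat Function

variable {ι : Type} [Fintype ι] [DecidableEq ι]

/-- the set of exponent vectors given by a family of components -/
def KK (𝒞 : Set (ι → Set (ℕ × ℕ))) : Set (ι → ℕ) :=
  {x | ∃ c ∈ 𝒞, ∃ σ : ι → ℕ, (∀ l, (x l, σ l) ∈ c l) ∧ ∑ l, σ l ∈ SS}

/-- a progression on which the set looks like the generating set -/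
def Gen (K : Set (ι → ℕ)) : Prop :=
  ∃ (x : ι → ℕ) (l : ι) (P Q s N : ℕ), x ∈ K ∧
    (∀ t, update x l (x l + t * P) ∈ K ↔ s + t * Q ∈ SS) ∧
    ∀ σ ∈ SS, N ≤ σ → ∃ t, σ = s + t * Q

lemma sum_upd (σ : ι → ℕ) (l : ι) (v : ℕ) : ∑ i, update σ l v i + σ l = ∑ i, σ i + v := by
  rw [Finset.sum_update_of_mem (Finset.mem_univ l),
    ← Finset.add_sum_erase Finset.univ σ (Finset.mem_univ l), Finset.sdiff_singleton_eq_erase]
  ring

lemma wit_update {c : ι → Set (ℕ × ℕ)} {x σ : ι → ℕ} (h : ∀ l, (x l, σ l) ∈ c l) {l : ι}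
    {v w : ℕ} (hv : (v, w) ∈ c l) : ∀ i, (update x l v i, update σ l w i) ∈ c i := by
  intro i
  by_cases hi : i = l
  · subst hi; simpa using hv
  · simpa [hi] using h i

lemma wit_update' {c : ι → Set (ℕ × ℕ)} {x σ : ι → ℕ} (h : ∀ l, (x l, σ l) ∈ c l) {l : ι}
    {w : ℕ} (hv : (x l, w) ∈ c l) : ∀ i, (x i, update σ l w i) ∈ c i := by
  simpa using wit_update h hv

omit [DecidableEq ι] in
lemma transfer_all {𝒞 : Set (ι → Set (ℕ × ℕ))} (hf : 𝒞.Finite)
    (hl : ∀ c ∈ 𝒞, ∀ l, IsLinearSet (c l)) (m : ℕ) :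
    ∀ᶠ n in atTop, ∀ c ∈ 𝒞, ∀ x x' σ : ι → ℕ, (∀ l, Eqv n (x l) (x' l)) →
      (∀ l, (x l, σ l) ∈ c l) →
      ∃ σ' : ι → ℕ, (∀ l, (x' l, σ' l) ∈ c l) ∧ Eqv m (∑ l, σ l) (∑ l, σ' l) := by
  rw [eventually_all_finite hf]
  intro c hc
  filter_upwards [eventually_all.mpr fun l => transfer (hl c hc l).isSemilinearSet m]
    with n hn x x' σ hx hσ
  choose σ' h1 h2 using fun l => hn l (x l) (x' l) (σ l) (hx l) (hσ l)
  exact ⟨σ', h1, Eqv.sum m _ _ _ h2⟩

lemma free_case {𝒞 : Set (ι → Set (ℕ × ℕ))} {D : ℕ} {c : ι → Set (ℕ × ℕ)} (hc : c ∈ 𝒞)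
    {x σ : ι → ℕ} (hσ : ∀ l, (x l, σ l) ∈ c l) (hZ : ZZ D (∑ l, σ l)) {l : ι}
    (hfree : Free D (c l)) : x ∈ KK 𝒞 := by
  obtain ⟨q, hq, hqD, h⟩ := hfree
  have h2 : ∀ t x s, (x, s) ∈ c l → (x, s + q * t) ∈ c l := by
    intro t x s hs
    induction t with
    | zero => simpa using hs
    | succ t ih => rw [mul_add, mul_one, ← add_assoc]; exact h _ _ ih
  obtain ⟨s, hs, hle⟩ := SS_large (TT D + ∑ l, σ l)
  have h3 : ∑ l, σ l ≡ s [MOD q] := (hZ.uniq (hs D (by omega))).of_dvd (dvd_factorial hq hqD)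
  obtain ⟨t, ht⟩ := (Nat.modEq_iff_dvd' (by omega)).mp h3
  refine ⟨c, hc, update σ l (σ l + q * t), wit_update' hσ (h2 t _ _ (hσ l)), ?_⟩
  have := sum_upd σ l (σ l + q * t)
  have e : ∑ i, update σ l (σ l + q * t) i = s := by omega
  rw [e]; exact hs

lemma thick_case (D C : ℕ) (hD : 0 < D) : ∃ N, ∀ (𝒞 : Set (ι → Set (ℕ × ℕ)))
    (c : ι → Set (ℕ × ℕ)) (_ : c ∈ 𝒞) (x σ : ι → ℕ) (_ : ∀ l, (x l, σ l) ∈ c l)
    (_ : ZZ D (∑ l, σ l)) (l : ι) (_ : Thick D (c l)) (_ : N ≤ x l) (_ : ∑ l, σ l ≤ C * x l),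
      x ∈ KK 𝒞 := by
  obtain ⟨N, hN⟩ := SS_dense (TT D) (2 * D * C + 1)
  refine ⟨D * N + D, fun 𝒞 c hc x σ hσ hZ l hth hx hC => ?_⟩
  obtain ⟨d, hd, hdD, h⟩ := hth _ _ (hσ l) (by omega)
  set J := x l / D with hJ
  have hJ1 : J * D ≤ x l := Nat.div_mul_le_self _ _
  have hJ2 : x l < D * (J + 1) := Nat.lt_mul_div_succ _ hD
  have hJN : N + 1 ≤ J := by
    rw [hJ, Nat.le_div_iff_mul_le hD]
    nlinarith
  have hJd : J ≤ J * d := Nat.le_mul_of_pos_right _ hd
  have hx2 : x l ≤ 2 * D * (J * d) := by nlinarith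
  have hsum : ∑ l, σ l ≤ 2 * D * C * (J * d) := by
    calc ∑ l, σ l ≤ C * x l := hC
      _ ≤ C * (2 * D * (J * d)) := Nat.mul_le_mul_left _ hx2
      _ = _ := by ring
  rcases h with h | h
  · obtain ⟨s, hs, h1, h2, h3⟩ := hN (∑ l, σ l) (J * d) (by omega) (by nlinarith)
    have h4 : ∑ l, σ l ≡ s [MOD d] := (hZ.uniq (hs D h3)).of_dvd (dvd_factorial hd hdD)
    obtain ⟨t, ht⟩ := (Nat.modEq_iff_dvd' h1).mp h4
    have htJ : t ≤ J := by
      have : d * t ≤ d * J := by rw [mul_comm d J]; omega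
      exact Nat.le_of_mul_le_mul_left this hd
    refine ⟨c, hc, update σ l (σ l + t * d),
      wit_update' hσ (h t ((Nat.mul_le_mul_right D htJ).trans hJ1)), ?_⟩
    have := sum_upd σ l (σ l + t * d)
    have e : ∑ i, update σ l (σ l + t * d) i = s := by rw [mul_comm d t] at ht; omega
    rw [e]; exact hs
  · obtain ⟨s0, -, hs0⟩ := h J hJ1
    have hle : σ l ≤ ∑ l, σ l :=
      Finset.single_le_sum (f := σ) (fun _ _ => Nat.zero_le _) (Finset.mem_univ l)
    obtain ⟨s, hs, h1, h2, h3⟩ := hN (∑ l, σ l - J * d) (J * d) (by omega) (by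
      have : ∑ l, σ l - J * d + J * d = ∑ l, σ l := by omega
      rw [this]; nlinarith)
    have h4 : s ≡ ∑ l, σ l [MOD d] := ((hs D h3).uniq hZ).of_dvd (dvd_factorial hd hdD)
    obtain ⟨t, ht⟩ := (Nat.modEq_iff_dvd' (by omega)).mp h4
    have htJ : t ≤ J := by
      have : d * t ≤ d * J := by rw [mul_comm d J]; omega
      exact Nat.le_of_mul_le_mul_left this hd
    obtain ⟨s', hs', e'⟩ := h t ((Nat.mul_le_mul_right D htJ).trans hJ1)
    refine ⟨c, hc, update σ l s', wit_update' hσ hs', ?_⟩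
    have := sum_upd σ l s'
    have e : ∑ i, update σ l s' i = s := by rw [mul_comm d t] at ht; omega
    rw [e]; exact hs

lemma line_case {𝒞 : Set (ι → Set (ℕ × ℕ))} {D M : ℕ} (hM : 0 < M) {c : ι → Set (ℕ × ℕ)}
    (hc : c ∈ 𝒞) {x σ : ι → ℕ} (hσ : ∀ l, (x l, σ l) ∈ c l) (hZ : ZZ (D * M) (∑ l, σ l)) {l : ι}
    (hline : Line D (c l)) (hb : ∀ i, Bnd D (c i))
    (hall : ∀ t, update x l (x l + t * M) ∈ KK 𝒞 → ∃ c' ∈ 𝒞, ∃ σ' : ι → ℕ,
      (∀ i, (update x l (x l + t * M) i, σ' i) ∈ c' i) ∧ ∑ i, σ' i ∈ SS ∧ Line D (c' l) ∧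
        ∀ i, Bnd D (c' i)) : Gen (KK 𝒞) := by
  obtain ⟨p, q, e, hp, hpD, hq, hqD, he, hpq, hstep⟩ := hline
  have hsteps : ∀ t v s, (v, s) ∈ c l → (v + t * p, s + t * q) ∈ c l := by
    intro t v s hs
    induction t with
    | zero => simpa using hs
    | succ t ih =>
      rw [add_mul, add_mul, one_mul, one_mul, ← add_assoc, ← add_assoc]; exact hstep _ _ ih
  set B0 := ∑ i, (D * x i + D) with hB0
  have hrest : ∀ (c' : ι → Set (ℕ × ℕ)) (v : ℕ) (σ' : ι → ℕ), (∀ i, Bnd D (c' i)) →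
      (∀ i, (update x l v i, σ' i) ∈ c' i) → ∃ r, r ≤ B0 ∧ ∑ i, σ' i = σ' l + r := by
    intro c' v σ' hb' hw
    refine ⟨∑ i ∈ Finset.univ.erase l, σ' i, ?_,
      (Finset.add_sum_erase Finset.univ σ' (Finset.mem_univ l)).symm⟩
    calc ∑ i ∈ Finset.univ.erase l, σ' i ≤ ∑ i ∈ Finset.univ.erase l, (D * x i + D) := by
          refine Finset.sum_le_sum fun i hi => ?_
          have := hb' i _ _ (hw i)
          rwa [update_of_ne (Finset.ne_of_mem_erase hi)] at this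
      _ ≤ B0 := Finset.sum_le_sum_of_subset (Finset.erase_subset _ _)
  obtain ⟨j2, hj2⟩ := ZZ_irr (2 * (D * D) + 2 * (D * D * B0))
  set W := j2 ! with hW
  have hWpos : 0 < W := factorial_pos _
  set Q := W * M * q with hQ
  have hQpos : 0 < Q := by positivity
  obtain ⟨s, hs, hsl⟩ := SS_large (∑ l, σ l + D * (D * TT j2 + D) + TT j2 + TT Q + TT (D * M))
  have h1 : ∑ l, σ l ≡ s [MOD M * q] := (hZ.uniq (hs _ (by omega))).of_dvd
    (dvd_factorial (by positivity) (by rw [mul_comm D M]; exact Nat.mul_le_mul_left _ hqD))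
  obtain ⟨n0, hn0⟩ := (Nat.modEq_iff_dvd' (by omega)).mp h1
  have hs0 : s = ∑ l, σ l + M * q * n0 := by omega
  have hbig : D * TT j2 + D ≤ n0 * M := by
    have h2 : D * (D * TT j2 + D) ≤ D * (n0 * M) := by
      calc D * (D * TT j2 + D) ≤ M * q * n0 := by omega
        _ = q * (n0 * M) := by ring
        _ ≤ D * (n0 * M) := Nat.mul_le_mul_right _ hqD
    exact Nat.le_of_mul_le_mul_left h2 (by omega)
  have hw : ∀ t i, (update x l (x l + (n0 * M + t * (W * M)) * p) i,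
      update σ l (σ l + (n0 * M + t * (W * M)) * q) i) ∈ c i :=
    fun t => wit_update hσ (hsteps _ _ _ (hσ l))
  have hsum : ∀ t, ∑ i, update σ l (σ l + (n0 * M + t * (W * M)) * q) i = s + t * Q := by
    intro t
    have := sum_upd σ l (σ l + (n0 * M + t * (W * M)) * q)
    have e2 : (n0 * M + t * (W * M)) * q = M * q * n0 + t * Q := by rw [hQ]; ring
    omega
  have hupd : ∀ t, update (update x l (x l + n0 * M * p)) l
      (update x l (x l + n0 * M * p) l + t * (W * M * p)) =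
      update x l (x l + (n0 * M + t * (W * M)) * p) := by
    intro t
    rw [update_idem, update_self]
    congr 1
    ring
  refine ⟨update x l (x l + n0 * M * p), l, W * M * p, Q, s, s + TT Q, ?_, fun t => ?_,
    fun σ1 hσ1 hle => ?_⟩
  · refine ⟨c, hc, _, by simpa using hw 0, ?_⟩
    have := hsum 0
    simp only [zero_mul, add_zero] at this
    rw [this]; exact hs
  · rw [hupd]
    constructor
    · intro hK
      have e3 : x l + (n0 * M + t * (W * M)) * p = x l + ((n0 + t * W) * p) * M := by ring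
      rw [e3] at hK
      obtain ⟨c', -, σ', hσ', hS', ⟨p', q', e', hp', hpD', hq', hqD', he', hpq', -⟩, hb'⟩ :=
        hall _ hK
      rw [← e3] at hσ'
      set v := x l + (n0 * M + t * (W * M)) * p with hv
      obtain ⟨r', hr', hsr'⟩ := hrest c' v σ' hb' hσ'
      obtain ⟨r, hr, hsr⟩ := hrest c v _ hb (hw t)
      rw [hsum, update_self] at hsr
      have a1 := hpq' _ _ (hσ' l)
      have a2 := hpq _ _ (hw t l)
      rw [update_self] at a1
      rw [update_self, update_self] at a2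
      set w := σ l + (n0 * M + t * (W * M)) * q with hwdef
      have hvbig : D * TT j2 + D ≤ v := by
        have : n0 * M ≤ (n0 * M + t * (W * M)) * p :=
          (Nat.le_add_right _ _).trans (Nat.le_mul_of_pos_right _ hp)
        omega
      have hlarge : TT j2 ≤ σ' l := by
        have b1 : v ≤ q' * v := Nat.le_mul_of_pos_left _ hq'
        have b2 : p' * σ' l ≤ D * σ' l := Nat.mul_le_mul_right _ hpD'
        have b3 : D * TT j2 ≤ D * σ' l := by
          zify at b1 b2 hvbig ⊢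
          have := (abs_le.mp he').1
          linarith
        exact Nat.le_of_mul_le_mul_left b3 (by omega)
      have z1 : ZZ j2 (∑ i, σ' i) := hS' j2 (by omega)
      have z2 : ZZ j2 (s + t * Q) := (hs j2 (by omega)).inv (by
        rw [hQ, show t * (W * M * q) = W * (t * M * q) by ring]
        simp [Nat.ModEq, hW])
      have c1 : p' * q ≤ D * D := Nat.mul_le_mul hpD' hqD
      have c2 : q' * p ≤ D * D := Nat.mul_le_mul hqD' hpD
      have c3 : p' * q * r' ≤ D * D * B0 := Nat.mul_le_mul c1 hr'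
      have c4 : q' * p * r ≤ D * D * B0 := Nat.mul_le_mul c2 hr
      have c5 : |(q : ℤ) * e'| ≤ D * D := by
        rw [abs_mul, Nat.abs_cast]
        exact mul_le_mul (by exact_mod_cast hqD) he' (abs_nonneg _) (by positivity)
      have c6 : |(q' : ℤ) * e| ≤ D * D := by
        rw [abs_mul, Nat.abs_cast]
        exact mul_le_mul (by exact_mod_cast hqD') he (abs_nonneg _) (by positivity)
      have key := hj2 _ _ z1 z2 (p' * q) (q' * p)
        (q * e' + (p' * q * r' : ℕ) - q' * e - (q' * p * r : ℕ)) (by omega) (by omega) (by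
          rw [abs_le] at c5 c6 ⊢
          zify at c3 c4
          push_cast
          have d1 : (0 : ℤ) ≤ (p' : ℤ) * q * r' := by positivity
          have d2 : (0 : ℤ) ≤ (q' : ℤ) * p * r := by positivity
          have d3 : (0 : ℤ) ≤ (D : ℤ) * D * B0 := by positivity
          constructor <;> linarith) (by
          rw [hsr', hsr]
          push_cast
          linear_combination (q : ℤ) * a1 - (q' : ℤ) * a2)
      have fin : (p' * q) * ∑ i, σ' i = (p' * q) * (s + t * Q) := by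
        have k1 := key.1
        have k2 := key.2
        rw [hsr', hsr]
        zify at k1 ⊢
        push_cast at k2
        linear_combination (q : ℤ) * a1 - (q' : ℤ) * a2 + k2 - ((w : ℤ) + r) * k1
      rw [← Nat.eq_of_mul_eq_mul_left (by positivity) fin]
      exact hS'
    · intro hS
      exact ⟨c, hc, _, hw t, by rw [hsum]; exact hS⟩
  · have h2 : s ≡ σ1 [MOD Q] := ((hs Q (by omega)).uniq (hσ1 Q (by omega))).of_dvd
      (dvd_factorial hQpos le_rfl)
    obtain ⟨t, ht⟩ := (Nat.modEq_iff_dvd' (by omega)).mp h2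
    exact ⟨t, by rw [mul_comm t Q]; omega⟩

end Pool.Agent.P.MP_3a8f7c_lc
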