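import Pool.Agent.P.MP_3a8f7c_lc.Core

set_option autoImplicit false

namespace Pool.Agent.P.MP_3a8f7c_lc

open Filter Nat Function

variable {ι : Type} [Fintype ι] [DecidableEq ι]

lemma star_lemma {𝒞 : Set (ι → Set (ℕ × ℕ))} (hf : 𝒞.Finite)
    (hl : ∀ c ∈ 𝒞, ∀ l, IsLinearSet (c l)) (hG : ¬ Gen (KK 𝒞)) (J : Finset ι) (hJ : J.Nonempty)
    (y : ι → ℕ) : ∃ n, ∀ x0 : ι → ℕ, (∀ l ∈ J, n ≤ x0 l) → ∃ l ∈ J, ∀ x' x'' : ι → ℕ,
      (∀ i, Eqv n (x0 i) (x' i)) → (∀ i, Eqv n (x0 i) (x'' i)) → (∀ i ∉ J, x'' i = y i) →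
      (∀ i ≠ l, x'' i = x' i) → x' ∈ KK 𝒞 → x'' ∈ KK 𝒞 := by
  have hD : ∀ᶠ D in atTop, ∀ c ∈ 𝒞, ∀ l,
      Free D (c l) ∨ (Bnd D (c l) ∧ (Thick D (c l) ∨ Flat (c l) ∨ Line D (c l))) := by
    rw [eventually_all_finite hf]
    exact fun c hc => eventually_all.mpr fun l => trichotomy (hl c hc l)
  obtain ⟨D, hD, hD1⟩ := (hD.and (eventually_ge_atTop 1)).exists
  obtain ⟨n1, hn1⟩ := (transfer_all hf hl (TT D)).exists
  obtain ⟨n2, hn2, hn12⟩ :=
    ((transfer_all hf hl (TT (D * n1 !))).and (eventually_ge_atTop n1)).exists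
  obtain ⟨N, hN⟩ := thick_case (ι := ι) D (D * (2 * Fintype.card ι + 1)) hD1
  have hTT : TT D ≤ TT (D * n1 !) := TT_mono (Nat.le_mul_of_pos_right _ (factorial_pos _))
  let Comp : (ι → Set (ℕ × ℕ)) → (ι → ℕ) → Prop := fun c x =>
    ∃ σ : ι → ℕ, (∀ l, (x l, σ l) ∈ c l) ∧ TT D ≤ ∑ l, σ l ∧ ZZ D (∑ l, σ l)
  have hComp : ∀ c ∈ 𝒞, ∀ x x' : ι → ℕ, (∀ l, Eqv n1 (x l) (x' l)) → Comp c x → Comp c x' := by
    rintro c hc x x' hx ⟨σ, h1, h2, h3⟩
    obtain ⟨σ', g1, g2⟩ := hn1 c hc x x' σ hx h1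
    exact ⟨σ', g1, g2.le h2, h3.inv (g2.modEq.of_dvd (factorial_dvd_factorial (le_TT D)))⟩
  refine ⟨n2 + ∑ i, y i + N + 1, fun x0 hx0 => ?_⟩
  set n := n2 + ∑ i, y i + N + 1 with hn
  have hnn2 : n2 ≤ n := by omega
  have hnn1 : n1 ≤ n := by omega
  obtain ⟨l0, hl0⟩ := hJ
  by_cases hsmall : ∃ c ∈ 𝒞, ∃ σ : ι → ℕ, (∀ l, (x0 l, σ l) ∈ c l) ∧ ∑ l, σ l ∈ SS ∧
      ∑ l, σ l < TT (D * n1 !)
  · obtain ⟨c, hc, σ, h1, h2, h3⟩ := hsmall
    refine ⟨l0, hl0, fun x' x'' _ hx'' _ _ _ => ?_⟩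
    obtain ⟨σ', g1, g2⟩ := hn2 c hc x0 x'' σ (fun l => (hx'' l).mono hnn2) h1
    exact ⟨c, hc, σ', g1, by rw [← g2.eq_of_lt h3]; exact h2⟩
  by_cases hfree : ∃ c ∈ 𝒞, Comp c x0 ∧ ∃ l, Free D (c l)
  · obtain ⟨c, hc, h1, l, h2⟩ := hfree
    refine ⟨l0, hl0, fun x' x'' _ hx'' _ _ _ => ?_⟩
    obtain ⟨σ, g1, -, g3⟩ := hComp c hc x0 x'' (fun l => (hx'' l).mono hnn1) h1
    exact free_case hc g1 g3 h2
  have hnf : ∀ c ∈ 𝒞, Comp c x0 → ∀ l,
      Bnd D (c l) ∧ (Thick D (c l) ∨ Flat (c l) ∨ Line D (c l)) := by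
    intro c hc h l
    rcases hD c hc l with h1 | h1
    · exact absurd ⟨c, hc, h, l, h1⟩ hfree
    · exact h1
  by_cases hthick : ∀ l ∈ J, ∃ c ∈ 𝒞, Comp c x0 ∧ Thick D (c l)
  · refine ⟨l0, hl0, fun x' x'' _ hx'' hy _ _ => ?_⟩
    obtain ⟨l, hlJ, hmax⟩ := Finset.exists_max_image J x'' ⟨l0, hl0⟩
    obtain ⟨c, hc, h1, h2⟩ := hthick l hlJ
    obtain ⟨σ, g1, -, g3⟩ := hComp c hc x0 x'' (fun l => (hx'' l).mono hnn1) h1
    have hxl : n ≤ x'' l := (hx'' l).le (hx0 l hlJ)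
    refine hN 𝒞 c hc x'' σ g1 g3 l h2 (by omega) ?_
    have hb : ∀ i, σ i ≤ 2 * D * x'' l := by
      intro i
      have k1 := (hnf c hc h1 i).1 _ _ (g1 i)
      have k2 : x'' i ≤ x'' l := by
        by_cases hi : i ∈ J
        · exact hmax i hi
        · rw [hy i hi]
          have := Finset.single_le_sum (f := y) (fun _ _ => Nat.zero_le _) (Finset.mem_univ i)
          omega
      have k3 : D * x'' i ≤ D * x'' l := Nat.mul_le_mul_left _ k2
      have k4 : D ≤ D * x'' l := Nat.le_mul_of_pos_right _ (by omega)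
      nlinarith
    have := Finset.sum_le_card_nsmul Finset.univ σ _ (fun i _ => hb i)
    rw [Finset.card_univ, smul_eq_mul] at this
    nlinarith [Nat.zero_le (D * x'' l)]
  push Not at hthick
  obtain ⟨l, hlJ, hl'⟩ := hthick
  have hfl : ∀ c ∈ 𝒞, Comp c x0 → Flat (c l) ∨ Line D (c l) := by
    intro c hc h
    rcases (hnf c hc h l).2 with h1 | h1
    · exact absurd h1 (hl' c hc h)
    · exact h1
  refine ⟨l, hlJ, fun x' x'' hx' hx'' _ hagree hK => ?_⟩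
  have hflat : ∀ c ∈ 𝒞, Comp c x0 → Flat (c l) → ∀ (z σ : ι → ℕ), (∀ i ≠ l, x'' i = z i) →
      (∀ i, (z i, σ i) ∈ c i) → ∑ i, σ i ∈ SS → x'' ∈ KK 𝒞 := by
    intro c hc h1 h2 z σ hz hσ hS
    obtain ⟨σ', g1, -, -⟩ := hComp c hc x0 x'' (fun l => (hx'' l).mono hnn1) h1
    refine ⟨c, hc, σ, fun i => ?_, hS⟩
    by_cases hi : i = l
    · subst hi
      rw [h2 _ _ _ _ (hσ i) (g1 i)]
      exact g1 i
    · rw [hz i hi]; exact hσ i
  obtain ⟨c, hc, σ, hσ, hS⟩ := hK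
  have hbig : TT (D * n1 !) ≤ ∑ i, σ i := by
    by_contra hlt
    push Not at hlt
    obtain ⟨σ', g1, g2⟩ := hn2 c hc x' x0 σ (fun l => (hx' l).symm.mono hnn2) hσ
    have e := g2.eq_of_lt hlt
    exact hsmall ⟨c, hc, σ', g1, e ▸ hS, e ▸ hlt⟩
  have hc0 : Comp c x0 := hComp c hc x' x0 (fun l => (hx' l).symm.mono hnn1)
    ⟨σ, hσ, hTT.trans hbig, hS D (hTT.trans hbig)⟩
  rcases hfl c hc hc0 with h | h
  · exact hflat c hc hc0 h x' σ hagree hσ hS
  by_contra hnot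
  apply hG
  refine line_case (factorial_pos n1) hc hσ (hS _ hbig) h (fun i => (hnf c hc hc0 i).1) ?_
  rintro t ⟨c', hc', σ', hσ', hS'⟩
  have he : ∀ i, Eqv n1 (update x' l (x' l + t * n1 !) i) (x0 i) := by
    intro i
    refine Eqv.trans ?_ ((hx' i).symm.mono hnn1)
    by_cases hi : i = l
    · subst hi
      have : n ≤ x' i := (hx' i).le (hx0 i hlJ)
      rw [update_self]
      exact Or.inr ⟨by omega, by omega, by simp [Nat.ModEq]⟩
    · rw [update_of_ne hi]; exact Eqv.refl _ _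
  have hbig' : TT D ≤ ∑ i, σ' i := by
    by_contra hlt
    push Not at hlt
    obtain ⟨σ'', g1, g2⟩ := hn1 c' hc' _ x0 σ' he hσ'
    have e := g2.eq_of_lt hlt
    exact hsmall ⟨c', hc', σ'', g1, e ▸ hS', by omega⟩
  have hc0' : Comp c' x0 := hComp c' hc' _ x0 he ⟨σ', hσ', hbig', hS' D hbig'⟩
  rcases hfl c' hc' hc0' with h' | h'
  · exact absurd (hflat c' hc' hc0' h' _ σ'
      (fun i hi => by rw [update_of_ne hi]; exact hagree i hi) hσ' hS') hnot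
  · exact ⟨c', hc', σ', hσ', hS', h', fun i => (hnf c' hc' hc0' i).1⟩

theorem dichotomy {𝒞 : Set (ι → Set (ℕ × ℕ))} (hf : 𝒞.Finite)
    (hl : ∀ c ∈ 𝒞, ∀ l, IsLinearSet (c l)) : Gen (KK 𝒞) ∨
      ∃ n, ∀ x x' : ι → ℕ, (∀ l, Eqv n (x l) (x' l)) → x ∈ KK 𝒞 → x' ∈ KK 𝒞 := by
  rw [or_iff_not_imp_left]
  intro hG
  have key : ∀ (J : Finset ι) (y : ι → ℕ), ∀ᶠ n in atTop, ∀ x x' : ι → ℕ,
      (∀ l ∉ J, x l = y l) → (∀ l ∉ J, x' l = y l) → (∀ l, Eqv n (x l) (x' l)) →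
        x ∈ KK 𝒞 → x' ∈ KK 𝒞 := by
    intro J
    induction J using Finset.strongInduction with
    | H J ih =>
    intro y
    rcases J.eq_empty_or_nonempty with rfl | hJ
    · refine Eventually.of_forall fun n x x' h1 h2 _ hx => ?_
      have : x' = x := funext fun l => by
        rw [h1 l (Finset.notMem_empty l), h2 l (Finset.notMem_empty l)]
      rw [this]; exact hx
    obtain ⟨n, hn⟩ := star_lemma hf hl hG J hJ y
    have h2 : ∀ᶠ m in atTop, ∀ l ∈ (J : Set ι), ∀ v ∈ Set.Iio (n + n !), ∀ x x' : ι → ℕ,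
        (∀ i ∉ J.erase l, x i = update y l v i) → (∀ i ∉ J.erase l, x' i = update y l v i) →
        (∀ i, Eqv m (x i) (x' i)) → x ∈ KK 𝒞 → x' ∈ KK 𝒞 := by
      rw [eventually_all_finite J.finite_toSet]
      intro l hlJ
      rw [eventually_all_finite (Set.finite_Iio _)]
      intro v _
      exact ih (J.erase l) (Finset.erase_ssubset hlJ) _
    filter_upwards [h2, eventually_ge_atTop n] with m hm hnm x x' hx hx' hxx hK
    have hsec : ∀ (z : ι → ℕ) (l : ι), (∀ i ∉ J, z i = y i) →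
        ∀ i ∉ J.erase l, z i = update y l (z l) i := by
      intro z l hz i hi
      by_cases hil : i = l
      · subst hil; simp
      · rw [update_of_ne hil]
        exact hz i fun h => hi (Finset.mem_erase.mpr ⟨hil, h⟩)
    by_cases hsm : ∃ l ∈ J, x l < n
    · obtain ⟨l, hlJ, hlt⟩ := hsm
      have e : x l = x' l := (hxx l).eq_of_lt (by omega)
      refine hm l hlJ (x l) (by simp only [Set.mem_Iio]; omega) x x' (hsec x l hx) ?_ hxx hK
      rw [e]; exact hsec x' l hx'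
    · push Not at hsm
      obtain ⟨l, hlJ, h⟩ := hn x hsm
      obtain ⟨v, hv, hxv⟩ := exists_rep n (x l)
      have hu : ∀ z : ι → ℕ, (∀ i ∉ J, z i = y i) → ∀ i ∉ J, update z l v i = y i := by
        intro z hz i hi
        rw [update_of_ne (fun h => hi (by rw [h]; exact hlJ))]
        exact hz i hi
      have he : ∀ z : ι → ℕ, (∀ i, Eqv n (x i) (z i)) → ∀ i, Eqv n (x i) (update z l v i) := by
        intro z hz i
        by_cases hil : i = l
        · subst hil; simpa using hxv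
        · rw [update_of_ne hil]; exact hz i
      have k1 : update x l v ∈ KK 𝒞 := h x _ (fun i => Eqv.refl _ _)
        (he x fun i => Eqv.refl _ _) (hu x hx) (fun i hi => update_of_ne hi _ _) hK
      have k2 : update x' l v ∈ KK 𝒞 := by
        refine hm l hlJ v hv _ _ ?_ ?_ ?_ k1
        · simpa using hsec _ l (hu x hx)
        · simpa using hsec _ l (hu x' hx')
        · intro i
          by_cases hil : i = l
          · subst hil; simpa using Eqv.refl _ _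
          · rw [update_of_ne hil, update_of_ne hil]; exact hxx i
      exact h _ x' (he x' fun i => (hxx i).mono hnm) (fun i => (hxx i).mono hnm) hx'
        (fun i hi => (update_of_ne hi _ _).symm) k2
  obtain ⟨n, hn⟩ := (key Finset.univ 0).exists
  exact ⟨n, fun x x' h => hn x x' (by simp) (by simp) h⟩

end Pool.Agent.P.MP_3a8f7c_lc
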