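import Pool.Agent.P.MP_3a8f7c_lc.Aut

set_option autoImplicit false

namespace Pool.Agent.P.MP_3a8f7c_lc

open Pointwise

/-- nonempty walks whose inner vertices lie in `X`, labels added -/
inductive Plus {Q M : Type} [AddCommMonoid M] (B : Q → Q → Set M) (X : Set Q) : Q → Q → M → Prop
  | edge {p q : Q} {m : M} : m ∈ B p q → Plus B X p q m
  | trans {p r q : Q} {m n : M} : r ∈ X → Plus B X p r m → Plus B X r q n → Plus B X p q (m + n)

lemma Plus.mono {Q M : Type} [AddCommMonoid M] {B : Q → Q → Set M} {X Y : Set Q} (hXY : X ⊆ Y)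
    {p q : Q} {m : M} (h : Plus B X p q m) : Plus B Y p q m := by
  induction h with
  | edge h => exact Plus.edge h
  | trans hr _ _ ih1 ih2 => exact Plus.trans (hXY hr) ih1 ih2

lemma plus_insert {Q M : Type} [AddCommMonoid M] (B : Q → Q → Set M) (X : Set Q) (r p q : Q) :
    {m | Plus B (insert r X) p q m} = {m | Plus B X p q m} ∪
      ({m | Plus B X p r m} + (AddSubmonoid.closure {m | Plus B X r r m} : Set M) +
        {m | Plus B X r q m}) := by
  ext m
  constructor
  · intro h
    change Plus B (insert r X) p q m at h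
    have key : Plus B X p q m ∨ ∃ a c d, Plus B X p r a ∧
        c ∈ AddSubmonoid.closure {m | Plus B X r r m} ∧ Plus B X r q d ∧ m = a + c + d := by
      induction h with
      | edge h => exact Or.inl (Plus.edge h)
      | @trans p r' q m n hr _ _ ih1 ih2 =>
        rcases hr with rfl | hr
        · right
          rcases ih1 with h1 | ⟨a, c, d, ha, hc, hd, rfl⟩ <;>
            rcases ih2 with h2 | ⟨a', c', d', ha', hc', hd', rfl⟩
          · exact ⟨m, 0, n, h1, zero_mem _, h2, by simp⟩
          · exact ⟨m, a' + c', d', h1, add_mem (AddSubmonoid.subset_closure ha') hc', hd',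
              by simp only [add_assoc]⟩
          · exact ⟨a, c + d, n, ha, add_mem hc (AddSubmonoid.subset_closure hd), h2,
              by simp only [add_assoc]⟩
          · exact ⟨a, c + d + a' + c', d', ha, add_mem (add_mem (add_mem hc
              (AddSubmonoid.subset_closure hd)) (AddSubmonoid.subset_closure ha')) hc', hd',
              by simp only [add_assoc]⟩
        · rcases ih1 with h1 | ⟨a, c, d, ha, hc, hd, rfl⟩ <;>
            rcases ih2 with h2 | ⟨a', c', d', ha', hc', hd', rfl⟩
          · exact Or.inl (Plus.trans hr h1 h2)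
          · exact Or.inr ⟨m + a', c', d', Plus.trans hr h1 ha', hc', hd',
              by simp only [add_assoc]⟩
          · exact Or.inr ⟨a, c, d + n, ha, hc, Plus.trans hr hd h2, by simp only [add_assoc]⟩
          · exact Or.inr ⟨a, c + (d + a') + c', d', ha, add_mem (add_mem hc
              (AddSubmonoid.subset_closure (Plus.trans hr hd ha'))) hc', hd',
              by simp only [add_assoc]⟩
    rcases key with h | ⟨a, c, d, ha, hc, hd, rfl⟩
    · exact Or.inl h
    · exact Or.inr (Set.add_mem_add (Set.add_mem_add ha hc) hd)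
  · rintro (h | ⟨_, ⟨a, ha, c, hc, rfl⟩, d, hd, rfl⟩)
    · exact Plus.mono (Set.subset_insert _ _) h
    · have h1 : Plus B (insert r X) p r (a + c) := by
        induction hc using AddSubmonoid.closure_induction generalizing a with
        | mem x hx =>
          exact Plus.trans (Set.mem_insert _ _) (Plus.mono (Set.subset_insert _ _) ha)
            (Plus.mono (Set.subset_insert _ _) hx)
        | zero => simpa using Plus.mono (Set.subset_insert _ _) ha
        | add x y hx hy ihx ihy =>
          clear ihy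
          have k : ∀ y ∈ AddSubmonoid.closure {m | Plus B X r r m}, ∀ a,
              Plus B (insert r X) p r a → Plus B (insert r X) p r (a + y) := by
            intro y hy
            induction hy using AddSubmonoid.closure_induction with
            | mem x hx =>
              exact fun a ha => Plus.trans (Set.mem_insert _ _) ha
                (Plus.mono (Set.subset_insert _ _) hx)
            | zero => exact fun a ha => by simpa using ha
            | add x y _ _ ihx ihy =>
              exact fun a ha => by rw [← add_assoc]; exact ihy _ (ihx _ ha)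
          rw [← add_assoc]
          exact k y hy _ (ihx a ha)
      exact Plus.trans (Set.mem_insert _ _) h1 (Plus.mono (Set.subset_insert _ _) hd)

lemma plus_semilinear {Q M : Type} [AddCommMonoid M] (B : Q → Q → Set M)
    (hB : ∀ p q, IsSemilinearSet (B p q)) (X : Set Q) (hX : X.Finite) :
    ∀ p q, IsSemilinearSet {m | Plus B X p q m} := by
  induction X, hX using Set.Finite.induction_on with
  | empty =>
    intro p q
    have : {m | Plus B ∅ p q m} = B p q := by
      ext m
      constructor
      · intro h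
        change Plus B ∅ p q m at h
        cases h with
        | edge h => exact h
        | trans hr _ _ => exact absurd hr (Set.notMem_empty _)
      · exact Plus.edge
    rw [this]; exact hB p q
  | @insert r X _ _ ih =>
    intro p q
    rw [plus_insert]
    exact (ih p q).union (((ih p r).add (ih r r).closure).add (ih r q))

lemma path_semilinear {Q B : Type} {E : Q → Option B → ℕ → Q → Prop} {X : Set Q}
    (hX : X.Finite) (hcl : ∀ p o w p', p ∈ X → E p o w p' → p' ∈ X)
    (hw : ∀ p o w p', E p o w p' → w ≤ 1) (b : B) (p : Q) (hp : p ∈ X) (q : Q) :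
    IsSemilinearSet {m : ℕ × ℕ | Path E p (List.replicate m.1 b) m.2 q} := by
  let Bs : Q → Q → Set (ℕ × ℕ) := fun p q =>
    {m | (m.1 = 0 ∧ E p none m.2 q) ∨ (m.1 = 1 ∧ E p (some b) m.2 q)}
  have hBs : ∀ p q, IsSemilinearSet (Bs p q) := by
    intro p q
    apply IsSemilinearSet.of_finite
    refine ((Set.finite_le_nat 1).prod (Set.finite_le_nat 1)).subset ?_
    rintro m (⟨h1, h2⟩ | ⟨h1, h2⟩)
    · exact ⟨by simp [h1], hw _ _ _ _ h2⟩
    · exact ⟨by simp [h1], hw _ _ _ _ h2⟩
  have e : {m : ℕ × ℕ | Path E p (List.replicate m.1 b) m.2 q} =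
      {m | p = q ∧ m = 0} ∪ {m | Plus Bs X p q m} := by
    ext m
    constructor
    · intro h
      have key : ∀ (p q : Q) (u : List B) (s : ℕ), Path E p u s q → p ∈ X → ∀ n,
          u = List.replicate n b → (p = q ∧ ((n, s) : ℕ × ℕ) = 0) ∨ Plus Bs X p q (n, s) := by
        intro p q u s h
        induction h with
        | nil q =>
          intro _ n hn
          left
          rcases n with _ | n
          · exact ⟨rfl, rfl⟩
          · simp [List.replicate_succ] at hn
        | @eps p p' q w s u he _ ih =>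
          intro hp n hn
          right
          have h1 : Plus Bs X p p' (0, w) := Plus.edge (Or.inl ⟨rfl, he⟩)
          rcases ih (hcl _ _ _ _ hp he) n hn with ⟨rfl, h0⟩ | h2
          · simp only [Prod.mk_eq_zero] at h0
            obtain ⟨rfl, rfl⟩ := h0
            exact h1
          · simpa using Plus.trans (hcl _ _ _ _ hp he) h1 h2
        | @sym p p' q w s c u he _ ih =>
          intro hp n hn
          right
          rcases n with _ | n
          · simp at hn
          rw [List.replicate_succ, List.cons.injEq] at hn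
          obtain ⟨rfl, hn⟩ := hn
          have h1 : Plus Bs X p p' (1, w) := Plus.edge (Or.inr ⟨rfl, he⟩)
          rcases ih (hcl _ _ _ _ hp he) n hn with ⟨rfl, h0⟩ | h2
          · simp only [Prod.mk_eq_zero] at h0
            obtain ⟨rfl, rfl⟩ := h0
            exact h1
          · simpa [add_comm] using Plus.trans (hcl _ _ _ _ hp he) h1 h2
      exact key p q _ _ h hp m.1 rfl
    · rintro (⟨rfl, rfl⟩ | h)
      · exact Path.nil _
      · change Plus Bs X p q m at h
        change Path E p (List.replicate m.1 b) m.2 q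
        clear hp
        induction h with
        | @edge p q m h =>
          rcases h with ⟨h1, h2⟩ | ⟨h1, h2⟩
          · rw [h1]; simpa using Path.eps h2 (Path.nil q)
          · rw [h1]; simpa using Path.sym h2 (Path.nil q)
        | trans _ _ _ ih1 ih2 =>
          rw [Prod.fst_add, Prod.snd_add, List.replicate_add]
          exact ih1.trans ih2
  rw [e]
  refine IsSemilinearSet.union ?_ (plus_semilinear Bs hBs X hX p q)
  apply IsSemilinearSet.of_finite
  exact (Set.finite_singleton 0).subset (fun m hm => hm.2)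

/-- the word with blocks of letters -/
def blocks {B : Type} {k : ℕ} (a : Fin k → B) (x : Fin k → ℕ) : List B :=
  (List.ofFn fun i => List.replicate (x i) (a i)).flatten

lemma blocks_succ {B : Type} {k : ℕ} (a : Fin (k + 1) → B) (x : Fin (k + 1) → ℕ) :
    blocks a x = List.replicate (x 0) (a 0) ++ blocks (fun i => a i.succ) (fun i => x i.succ) := by
  simp [blocks, List.ofFn_succ]

lemma components {Q B : Type} {E : Q → Option B → ℕ → Q → Prop} {X : Set Q}
    (hX : X.Finite) (hcl : ∀ p o w p', p ∈ X → E p o w p' → p' ∈ X)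
    (hw : ∀ p o w p', E p o w p' → w ≤ 1) (k : ℕ) : ∀ (a : Fin (k + 1) → B) (p : Q) (_ : p ∈ X)
      (q : Q), ∃ 𝒞 : Set (Fin (k + 1) → Set (ℕ × ℕ)), 𝒞.Finite ∧
        (∀ c ∈ 𝒞, ∀ l, IsLinearSet (c l)) ∧ ∀ (x : Fin (k + 1) → ℕ) (s : ℕ),
          Path E p (blocks a x) s q ↔
            ∃ c ∈ 𝒞, ∃ σ : Fin (k + 1) → ℕ, (∀ l, (x l, σ l) ∈ c l) ∧ ∑ l, σ l = s := by
  induction k with
  | zero =>
    intro a p hp q
    obtain ⟨𝒮, h1, h2, h3⟩ := path_semilinear hX hcl hw (a 0) p hp q
    refine ⟨(fun R _ => R) '' 𝒮, h1.image _, ?_, fun x s => ?_⟩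
    · rintro _ ⟨R, hR, rfl⟩ l
      exact h2 R hR
    · have : blocks a x = List.replicate (x 0) (a 0) := by simp [blocks]
      rw [this]
      have h4 := Set.ext_iff.mp h3 (x 0, s)
      simp only [Set.mem_setOf_eq, Set.mem_sUnion] at h4
      rw [h4]
      constructor
      · rintro ⟨R, hR, hx⟩
        refine ⟨_, ⟨R, hR, rfl⟩, fun _ => s, fun l => ?_, by simp⟩
        rw [Fin.fin_one_eq_zero l]; exact hx
      · rintro ⟨_, ⟨R, hR, rfl⟩, σ, hσ, rfl⟩
        exact ⟨R, hR, by simpa using hσ 0⟩
  | succ k ih =>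
    intro a p hp q
    choose 𝒮 h1 h2 h3 using fun r => path_semilinear hX hcl hw (a 0) p hp r
    choose! 𝒟 g1 g2 g3 using fun r hr => ih (fun i => a i.succ) r hr q
    refine ⟨⋃ r ∈ X, Set.image2 (fun R c => Fin.cons R c) (𝒮 r) (𝒟 r),
      hX.biUnion fun r hr => (h1 r).image2 _ (g1 r hr), ?_, fun x s => ?_⟩
    · intro c hc l
      simp only [Set.mem_iUnion] at hc
      obtain ⟨r, hr, R, hR, d, hd, rfl⟩ := hc
      refine Fin.cases ?_ (fun l => ?_) l
      · simpa using h2 r R hR
      · simpa using g2 r hr d hd l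
    · rw [blocks_succ]
      constructor
      · intro h
        obtain ⟨r, s1, s2, p1, p2, rfl⟩ := h.split _ _ rfl
        have hr := p1.mem hcl hp
        have h4 := (Set.ext_iff.mp (h3 r) (x 0, s1)).mp p1
        obtain ⟨R, hR, hx⟩ := h4
        obtain ⟨d, hd, σ, hσ, rfl⟩ := (g3 r hr _ _).mp p2
        refine ⟨Fin.cons R d, Set.mem_biUnion hr ⟨R, hR, d, hd, rfl⟩, Fin.cons s1 σ,
          fun l => ?_, by simp [Fin.sum_univ_succ]⟩
        refine Fin.cases ?_ (fun l => ?_) l
        · simpa using hx
        · simpa using hσ l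
      · rintro ⟨c, hc, σ, hσ, rfl⟩
        simp only [Set.mem_iUnion] at hc
        obtain ⟨r, hr, R, hR, d, hd, rfl⟩ := hc
        rw [Fin.sum_univ_succ]
        refine Path.trans (r := r) ?_ ?_
        · exact (Set.ext_iff.mp (h3 r) (x 0, σ 0)).mpr ⟨R, hR, by simpa using hσ 0⟩
        · exact (g3 r hr _ _).mpr ⟨d, hd, fun l => σ l.succ, fun l => by simpa using hσ l.succ, rfl⟩

lemma dd_components {S : Set ℕ} {B : Type} [Finite B] {L : Language B} (hL : L ∈ DD S B) (k : ℕ)
    (a : Fin (k + 1) → B) : ∃ 𝒞 : Set (Fin (k + 1) → Set (ℕ × ℕ)), 𝒞.Finite ∧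
        (∀ c ∈ 𝒞, ∀ l, IsLinearSet (c l)) ∧ ∀ x : Fin (k + 1) → ℕ,
          blocks a x ∈ L ↔
            ∃ c ∈ 𝒞, ∃ σ : Fin (k + 1) → ℕ, (∀ l, (x l, σ l) ∈ c l) ∧ ∑ l, σ l ∈ S := by
  obtain ⟨Q, E, i, F, X, hX, hi, hcl, hw, hL⟩ := hL
  choose 𝒟 g1 g2 g3 using fun q => components hX hcl hw k a i hi q
  refine ⟨⋃ q ∈ X ∩ F, 𝒟 q, (hX.inter_of_left F).biUnion fun q _ => g1 q, ?_, fun x => ?_⟩
  · intro c hc
    simp only [Set.mem_iUnion] at hc
    obtain ⟨q, _, hc⟩ := hc
    exact g2 q c hc
  · rw [hL]
    constructor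
    · rintro ⟨f, hf, s, hs, hp⟩
      obtain ⟨c, hc, σ, hσ, rfl⟩ := (g3 f x s).mp hp
      exact ⟨c, Set.mem_biUnion ⟨hp.mem hcl hi, hf⟩ hc, σ, hσ, hs⟩
    · rintro ⟨c, hc, σ, hσ, hs⟩
      simp only [Set.mem_iUnion] at hc
      obtain ⟨q, hq, hc⟩ := hc
      exact ⟨q, hq.2, _, hs, (g3 q x _).mpr ⟨c, hc, σ, hσ, rfl⟩⟩

end Pool.Agent.P.MP_3a8f7c_lc
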