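import Mathlib

set_option autoImplicit false

namespace Pool.Agent.P.MP_3a8f7c_lc

open Filter Nat

/-- equal, or both large and congruent -/
def Eqv (n a b : ℕ) : Prop := a = b ∨ (n ≤ a ∧ n ≤ b ∧ a ≡ b [MOD n !])

lemma Eqv.refl (n a : ℕ) : Eqv n a a := Or.inl rfl

lemma Eqv.symm {n a b : ℕ} (h : Eqv n a b) : Eqv n b a := by
  rcases h with rfl | ⟨h1, h2, h3⟩
  · exact Or.inl rfl
  · exact Or.inr ⟨h2, h1, h3.symm⟩

lemma Eqv.trans {n a b c : ℕ} (h : Eqv n a b) (h' : Eqv n b c) : Eqv n a c := by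
  rcases h with rfl | ⟨h1, h2, h3⟩
  · exact h'
  · rcases h' with rfl | ⟨h4, h5, h6⟩
    · exact Or.inr ⟨h1, h2, h3⟩
    · exact Or.inr ⟨h1, h5, h3.trans h6⟩

lemma Eqv.mono {n m a b : ℕ} (hnm : n ≤ m) (h : Eqv m a b) : Eqv n a b := by
  rcases h with rfl | ⟨h1, h2, h3⟩
  · exact Or.inl rfl
  · exact Or.inr ⟨hnm.trans h1, hnm.trans h2, h3.of_dvd (factorial_dvd_factorial hnm)⟩

lemma Eqv.modEq {n a b : ℕ} (h : Eqv n a b) : a ≡ b [MOD n !] := by
  rcases h with rfl | ⟨_, _, h3⟩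
  · rfl
  · exact h3

lemma Eqv.add {n a b c d : ℕ} (h : Eqv n a b) (h' : Eqv n c d) : Eqv n (a + c) (b + d) := by
  rcases h with rfl | ⟨h1, h2, h3⟩
  · rcases h' with rfl | ⟨h4, h5, h6⟩
    · exact Or.inl rfl
    · exact Or.inr ⟨by omega, by omega, h6.add_left a⟩
  · exact Or.inr ⟨by omega, by omega, h3.add h'.modEq⟩

lemma Eqv.sum {ι : Type} (n : ℕ) (t : Finset ι) (f g : ι → ℕ) (h : ∀ i, Eqv n (f i) (g i)) :
    Eqv n (∑ i ∈ t, f i) (∑ i ∈ t, g i) := by
  classical
  induction t using Finset.induction_on with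
  | empty => exact Or.inl rfl
  | insert a t ha ih => rw [Finset.sum_insert ha, Finset.sum_insert ha]; exact (h a).add ih

lemma Eqv.eq_of_lt {n a b : ℕ} (h : Eqv n a b) (ha : a < n) : a = b := by
  rcases h with rfl | ⟨h1, _, _⟩
  · rfl
  · omega

lemma Eqv.le {n a b : ℕ} (h : Eqv n a b) (ha : n ≤ a) : n ≤ b := by
  rcases h with rfl | ⟨_, h1, _⟩
  · exact ha
  · exact h1

lemma exists_rep (n a : ℕ) : ∃ r, r < n + n ! ∧ Eqv n a r := by
  by_cases h : a < n
  · exact ⟨a, by omega, Or.inl rfl⟩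
  · obtain ⟨d, rfl⟩ := Nat.exists_eq_add_of_le (not_lt.mp h)
    refine ⟨n + d % n !, by have := Nat.mod_lt d (factorial_pos n); omega,
      Or.inr ⟨by omega, by omega, ?_⟩⟩
    exact (Nat.mod_modEq d _).symm.add_left n

lemma eqv_of_semilinear {Y : Set ℕ} (hY : IsSemilinearSet Y) :
    ∀ᶠ n in atTop, ∀ x x', Eqv n x x' → x ∈ Y → x' ∈ Y := by
  obtain ⟨k, p, hp, h⟩ := Nat.isSemilinearSet_iff_ultimately_periodic.mp hY
  have h2 : ∀ t x, k ≤ x → (x ∈ Y ↔ x + p * t ∈ Y) := by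
    intro t
    induction t with
    | zero => simp
    | succ t ih =>
      intro x hx
      rw [ih x hx, h _ (by omega), show x + p * t + p = x + p * (t + 1) by ring]
  filter_upwards [eventually_ge_atTop (max k p)] with n hn x x' hxx
  rcases hxx with rfl | ⟨h1, h3, h4⟩
  · exact id
  have h5 : x ≡ x' [MOD p] := h4.of_dvd (dvd_factorial hp (le_of_max_le_right hn))
  have hk : k ≤ n := le_of_max_le_left hn
  rcases le_total x x' with hle | hle
  · obtain ⟨t, ht⟩ := (Nat.modEq_iff_dvd' hle).mp h5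
    have : x' = x + p * t := by omega
    rw [this]
    exact (h2 t x (by omega)).mp
  · obtain ⟨t, ht⟩ := (Nat.modEq_iff_dvd' hle).mp h5.symm
    have : x = x' + p * t := by omega
    rw [this]
    exact (h2 t x' (by omega)).mpr

lemma semilinear_eqv (m r : ℕ) : IsSemilinearSet {s | Eqv m s r} := by
  rw [Nat.isSemilinearSet_iff_ultimately_periodic]
  refine ⟨m, m !, factorial_pos m, fun x hx => ?_⟩
  have : Eqv m x (x + m !) := Or.inr ⟨hx, by omega, by simp [Nat.ModEq]⟩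
  exact ⟨fun h => this.symm.trans h, fun h => this.trans h⟩

lemma transfer {R : Set (ℕ × ℕ)} (hR : IsSemilinearSet R) (m : ℕ) :
    ∀ᶠ n in atTop, ∀ x x' s, Eqv n x x' → (x, s) ∈ R → ∃ s', (x', s') ∈ R ∧ Eqv m s s' := by
  have h1 : ∀ r ∈ Set.Iio (m + m !), ∀ᶠ n in atTop, ∀ x x', Eqv n x x' →
      x ∈ {x | ∃ s, Eqv m s r ∧ (x, s) ∈ R} → x' ∈ {x | ∃ s, Eqv m s r ∧ (x, s) ∈ R} := by
    intro r _
    apply eqv_of_semilinear
    have := (hR.inter ((semilinear_eqv m r).preimage (AddMonoidHom.snd ℕ ℕ))).image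
      (AddMonoidHom.fst ℕ ℕ)
    convert this using 1
    ext x
    constructor
    · rintro ⟨s, h1, h2⟩
      exact ⟨(x, s), ⟨h2, h1⟩, rfl⟩
    · rintro ⟨⟨y, s⟩, ⟨h2, h1⟩, rfl⟩
      exact ⟨s, h1, h2⟩
  filter_upwards [(eventually_all_finite (Set.finite_Iio (m + m !))).mpr h1] with n hn x x' s hx hs
  obtain ⟨r, hr, hsr⟩ := exists_rep m s
  obtain ⟨s', h2, h3⟩ := hn r hr x x' hx ⟨s, hsr, hs⟩
  exact ⟨s', h3, hsr.trans h2.symm⟩

/-- a period in the weight direction -/
def Free (D : ℕ) (R : Set (ℕ × ℕ)) : Prop :=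
  ∃ q, 0 < q ∧ q ≤ D ∧ ∀ x s, (x, s) ∈ R → (x, s + q) ∈ R

/-- linear bound on the weight -/
def Bnd (D : ℕ) (R : Set (ℕ × ℕ)) : Prop := ∀ x s, (x, s) ∈ R → s ≤ D * x + D

/-- long progressions of weights -/
def Thick (D : ℕ) (R : Set (ℕ × ℕ)) : Prop :=
  ∀ x s, (x, s) ∈ R → D ≤ x → ∃ d, 0 < d ∧ d ≤ D ∧
    ((∀ j, j * D ≤ x → (x, s + j * d) ∈ R) ∨ (∀ j, j * D ≤ x → ∃ s', (x, s') ∈ R ∧ s' + j * d = s))

/-- constant weight -/
def Flat (R : Set (ℕ × ℕ)) : Prop := ∀ x s x' s', (x, s) ∈ R → (x', s') ∈ R → s = s'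

/-- a line of positive slope -/
def Line (D : ℕ) (R : Set (ℕ × ℕ)) : Prop :=
  ∃ (p q : ℕ) (e : ℤ), 0 < p ∧ p ≤ D ∧ 0 < q ∧ q ≤ D ∧ |e| ≤ D ∧
    (∀ x s, (x, s) ∈ R → (p : ℤ) * s = q * x + e) ∧ ∀ x s, (x, s) ∈ R → (x + p, s + q) ∈ R

lemma trichotomy {R : Set (ℕ × ℕ)} (hR : IsLinearSet R) :
    ∀ᶠ D in atTop, Free D R ∨ (Bnd D R ∧ (Thick D R ∨ Flat R ∨ Line D R)) := by
  classical
  obtain ⟨a, N, f, hRdef⟩ := isLinearSet_iff_exists_fin_addMonoidHom.mp hR
  let p : Fin N → ℕ := fun i => (f (Pi.single i 1)).1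
  let q : Fin N → ℕ := fun i => (f (Pi.single i 1)).2
  have hf : ∀ n : Fin N → ℕ, f n = (∑ i, n i * p i, ∑ i, n i * q i) := by
    intro n
    have : n = ∑ i, n i • (Pi.single i 1 : Fin N → ℕ) := by
      ext j; simp [Finset.sum_apply, Pi.single_apply]
    conv_lhs => rw [this, map_sum]
    ext
    · simp only [Prod.fst_sum, map_nsmul, Prod.smul_fst, smul_eq_mul, p]
    · simp only [Prod.snd_sum, map_nsmul, Prod.smul_snd, smul_eq_mul, q]
  have hmem : ∀ x s, (x, s) ∈ R ↔ ∃ n : Fin N → ℕ,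
      x = a.1 + ∑ i, n i * p i ∧ s = a.2 + ∑ i, n i * q i := by
    intro x s
    rw [hRdef, Set.mem_vadd_set]
    constructor
    · rintro ⟨_, ⟨n, rfl⟩, h⟩
      rw [hf, vadd_eq_add] at h
      exact ⟨n, (congrArg Prod.fst h).symm, (congrArg Prod.snd h).symm⟩
    · rintro ⟨n, rfl, rfl⟩
      exact ⟨_, ⟨n, rfl⟩, by rw [hf, vadd_eq_add]; rfl⟩
  have hadd : ∀ x s i t, (x, s) ∈ R → (x + t * p i, s + t * q i) ∈ R := by
    intro x s i t h
    obtain ⟨n, rfl, rfl⟩ := (hmem _ _).mp h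
    refine (hmem _ _).mpr ⟨n + Pi.single i t, ?_, ?_⟩
    · simp [add_mul, Finset.sum_add_distrib, Pi.single_apply, add_assoc]
    · simp [add_mul, Finset.sum_add_distrib, Pi.single_apply, add_assoc]
  obtain ⟨P, hP1, hPa1, hPa2, hPp, hPq⟩ : ∃ P, 1 ≤ P ∧ a.1 ≤ P ∧ a.2 ≤ P ∧ (∀ i, p i ≤ P) ∧
      ∀ i, q i ≤ P := by
    refine ⟨1 + a.1 + a.2 + ∑ i, p i + ∑ i, q i, by omega, by omega, by omega, fun i => ?_,
      fun i => ?_⟩
    · have := Finset.single_le_sum (f := p) (fun _ _ => Nat.zero_le _) (Finset.mem_univ i)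
      omega
    · have := Finset.single_le_sum (f := q) (fun _ _ => Nat.zero_le _) (Finset.mem_univ i)
      omega
  filter_upwards [eventually_ge_atTop (2 * N * P * P + 2 * P * P + 2 * P)] with D hD
  have hPP : P ≤ P * P := Nat.le_mul_self P
  have hD1 : 2 * P * P ≤ D := by omega
  have hD2 : 2 * P ≤ D := by omega
  have hD3 : 2 * N * P * P ≤ D := by omega
  by_cases hfree : ∃ i, p i = 0 ∧ 0 < q i
  · obtain ⟨i, h1, h2⟩ := hfree
    left
    refine ⟨q i, h2, by have := hPq i; omega, fun x s h => ?_⟩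
    simpa [h1] using hadd x s i 1 h
  right
  push Not at hfree
  have hqp : ∀ i, q i ≤ P * p i := by
    intro i
    rcases Nat.eq_zero_or_pos (p i) with h | h
    · have := hfree i h; omega
    · exact (hPq i).trans (Nat.le_mul_of_pos_right _ h)
  refine ⟨fun x s h => ?_, ?_⟩
  · obtain ⟨n, rfl, rfl⟩ := (hmem _ _).mp h
    have h1 : ∑ i, n i * q i ≤ P * ∑ i, n i * p i := by
      rw [Finset.mul_sum]
      refine Finset.sum_le_sum fun i _ => ?_
      have := Nat.mul_le_mul_left (n i) (hqp i)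
      nlinarith
    have h2 : P * ∑ i, n i * p i ≤ D * (a.1 + ∑ i, n i * p i) :=
      Nat.mul_le_mul (by omega) (by omega)
    omega
  by_cases hpar : ∀ i i', p i * q i' = p i' * q i
  · right
    by_cases hq0 : ∀ i, q i = 0
    · left
      intro x s x' s' h h'
      obtain ⟨n, -, rfl⟩ := (hmem _ _).mp h
      obtain ⟨n', -, rfl⟩ := (hmem _ _).mp h'
      simp [hq0]
    · right
      push Not at hq0
      obtain ⟨i, hi⟩ := hq0
      have hpi : p i ≠ 0 := fun h => by have := hfree i h; omega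
      refine ⟨p i, q i, (p i : ℤ) * a.2 - q i * a.1, by omega, by have := hPp i; omega, by omega,
        by have := hPq i; omega, ?_, fun x s h => ?_, fun x s h => ?_⟩
      · have h1 : p i * a.2 ≤ P * P := Nat.mul_le_mul (hPp i) hPa2
        have h2 : q i * a.1 ≤ P * P := Nat.mul_le_mul (hPq i) hPa1
        have h3 : P * P ≤ D := by nlinarith
        rw [abs_le]
        zify at h1 h2 h3
        have h4 : (0 : ℤ) ≤ (p i : ℤ) * a.2 := by positivity
        have h5 : (0 : ℤ) ≤ (q i : ℤ) * a.1 := by positivity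
        constructor <;> linarith
      · obtain ⟨n, rfl, rfl⟩ := (hmem _ _).mp h
        have : p i * ∑ j, n j * q j = q i * ∑ j, n j * p j := by
          rw [Finset.mul_sum, Finset.mul_sum]
          refine Finset.sum_congr rfl fun j _ => ?_
          have := hpar i j
          calc p i * (n j * q j) = n j * (p i * q j) := by ring
            _ = n j * (p j * q i) := by rw [this]
            _ = _ := by ring
        zify at this
        push_cast
        linear_combination this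
      · simpa using hadd x s i 1 h
  · left
    push Not at hpar
    obtain ⟨i1, i2, h12⟩ := hpar
    intro x s h hx
    obtain ⟨n, hxn, hsn⟩ := (hmem _ _).mp h
    have hN : (Finset.univ : Finset (Fin N)).Nonempty := ⟨i1, Finset.mem_univ _⟩
    obtain ⟨i0, -, hi0⟩ := Finset.exists_max_image Finset.univ (fun i => n i * p i) hN
    have hsum : ∑ i, n i * p i ≤ N * (n i0 * p i0) := by
      have := Finset.sum_le_card_nsmul Finset.univ (fun i => n i * p i) (n i0 * p i0) hi0
      simpa using this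
    have hx2 : x ≤ 2 * (N * (n i0 * p i0)) := by omega
    have hp0 : 0 < p i0 := by
      rcases Nat.eq_zero_or_pos (p i0) with h0 | h0
      · rw [h0] at hx2; simp at hx2; omega
      · exact h0
    obtain ⟨i', hi'⟩ : ∃ i', p i0 * q i' ≠ p i' * q i0 := by
      by_contra hcon
      push Not at hcon
      apply h12
      apply Nat.eq_of_mul_eq_mul_left hp0
      have e1 := hcon i1
      have e2 := hcon i2
      calc p i0 * (p i1 * q i2) = p i1 * (p i0 * q i2) := by ring
        _ = p i1 * (p i2 * q i0) := by rw [e2]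
        _ = p i2 * (p i1 * q i0) := by ring
        _ = p i2 * (p i0 * q i1) := by rw [e1]
        _ = _ := by ring
    have hexch : ∀ j, j * D ≤ x → ∃ s0, s = s0 + j * (p i' * q i0) ∧
        (x, s0 + j * (p i0 * q i')) ∈ R := by
      intro j hj
      have hjn : j * p i' ≤ n i0 := by
        have hN0 : 0 < N := Fin.pos i1
        have h1 : j * (2 * N * P * P) ≤ 2 * (N * (n i0 * P)) := by
          calc j * (2 * N * P * P) ≤ j * D := Nat.mul_le_mul_left _ hD3
            _ ≤ x := hj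
            _ ≤ 2 * (N * (n i0 * p i0)) := hx2
            _ ≤ _ := by have := hPp i0; gcongr
        have h2 : (2 * N * P) * (j * P) ≤ (2 * N * P) * n i0 := by nlinarith
        have h3 : j * P ≤ n i0 := Nat.le_of_mul_le_mul_left h2 (by positivity)
        exact (Nat.mul_le_mul_left j (hPp i')).trans h3
      obtain ⟨r, hr⟩ := Nat.exists_eq_add_of_le hjn
      let m : Fin N → ℕ := Function.update n i0 r
      have hnm : n = m + Pi.single i0 (j * p i') := by
        ext i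
        by_cases hi : i = i0
        · subst hi; simp [m, hr, add_comm]
        · simp [m, hi]
      have hs1 : ∑ i, n i * p i = ∑ i, m i * p i + j * p i' * p i0 := by
        conv_lhs => rw [hnm]
        simp [add_mul, Finset.sum_add_distrib, Pi.single_apply]
      have hs2 : ∑ i, n i * q i = ∑ i, m i * q i + j * p i' * q i0 := by
        conv_lhs => rw [hnm]
        simp [add_mul, Finset.sum_add_distrib, Pi.single_apply]
      refine ⟨a.2 + ∑ i, m i * q i, by rw [hsn, hs2]; ring, ?_⟩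
      have := hadd _ _ i' (j * p i0) ((hmem _ _).mpr ⟨m, rfl, rfl⟩)
      convert this using 2
      · rw [hxn, hs1]; ring
      · ring
    have b1 : p i0 * q i' ≤ P * P := Nat.mul_le_mul (hPp _) (hPq _)
    have b2 : p i' * q i0 ≤ P * P := Nat.mul_le_mul (hPp _) (hPq _)
    have b3 : P * P ≤ D := by nlinarith
    rcases lt_or_gt_of_ne hi' with hlt | hlt
    · obtain ⟨d, hd⟩ := Nat.exists_eq_add_of_lt hlt
      refine ⟨d + 1, by omega, by omega, Or.inr fun j hj => ?_⟩
      obtain ⟨s0, h1, h2⟩ := hexch j hj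
      exact ⟨_, h2, by rw [h1, hd]; ring⟩
    · obtain ⟨d, hd⟩ := Nat.exists_eq_add_of_lt hlt
      refine ⟨d + 1, by omega, by omega, Or.inl fun j hj => ?_⟩
      obtain ⟨s0, h1, h2⟩ := hexch j hj
      convert h2 using 2
      rw [h1, hd]; ring

end Pool.Agent.P.MP_3a8f7c_lc
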