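import Pool.Agent.P.MP_3a8f7c_lc.Pump

set_option autoImplicit false

namespace Pool.Agent.P.MP_3a8f7c_lc

/-- local languages are regular -/
lemma chain_regular {A : Type} [Finite A] (ρ : A → A → Prop) :
    Language.IsRegular ({z | z.IsChain ρ} : Language A) := by
  apply Language.IsRegular.of_finite_range_leftQuotient
  have hfin : Set.Finite (Set.range (fun o : Option (Option A) =>
      (match o with
        | none => (∅ : Set (List A))
        | some none => {z | z.IsChain ρ}
        | some (some a) => {z | (a :: z).IsChain ρ} : Language A))) := Set.finite_range _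
  refine hfin.subset ?_
  rintro _ ⟨x, rfl⟩
  by_cases hx : x.IsChain ρ
  · rcases List.eq_nil_or_concat x with rfl | ⟨x', a, rfl⟩
    · exact ⟨some none, rfl⟩
    · refine ⟨some (some a), ?_⟩
      ext y
      change (a :: y).IsChain ρ ↔ (x'.concat a ++ y).IsChain ρ
      rw [List.concat_eq_append] at hx ⊢
      rw [List.append_assoc, List.singleton_append, List.isChain_split]
      simp [hx]
  · refine ⟨none, ?_⟩
    ext y
    change False ↔ (x ++ y).IsChain ρ
    simp only [false_iff]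
    intro h
    exact hx (List.IsChain.left_of_append h)

/-- the witness languages -/
def L3 (r : ℕ → ℕ → ℕ → Prop) : Language (Fin 3) :=
  {w | w.Pairwise (· ≤ ·) ∧ r (w.count 0) (w.count 1) (w.count 2)}

lemma sorted3 (i j k : ℕ) :
    (List.replicate i (0 : Fin 3) ++ List.replicate j 1 ++ List.replicate k 2).Pairwise
      (· ≤ ·) := by
  simp only [List.pairwise_append, List.pairwise_replicate, List.mem_append, List.mem_replicate]
  refine ⟨⟨by simp, by simp, ?_⟩, by simp, ?_⟩
  · rintro a ⟨_, rfl⟩ b ⟨_, rfl⟩; decide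
  · rintro a (⟨_, rfl⟩ | ⟨_, rfl⟩) b ⟨_, rfl⟩ <;> decide

lemma eq_of_sorted3 (w : List (Fin 3)) (hw : w.Pairwise (· ≤ ·)) :
    w = List.replicate (w.count 0) 0 ++ List.replicate (w.count 1) 1 ++
      List.replicate (w.count 2) 2 := by
  apply List.Perm.eq_of_pairwise' hw (sorted3 _ _ _)
  rw [List.perm_iff_count]
  intro a
  fin_cases a <;> simp [List.count_replicate]

lemma mem_L3 (r : ℕ → ℕ → ℕ → Prop) (i j k : ℕ) :
    List.replicate i (0 : Fin 3) ++ List.replicate j 1 ++ List.replicate k 2 ∈ L3 r ↔ r i j k := by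
  change _ ∧ _ ↔ _
  rw [and_iff_right (sorted3 i j k)]
  simp [List.count_replicate]

lemma mem_sLang (r : ℕ → ℕ → Prop) (m n : ℕ) :
    List.replicate m (0 : Fin 2) ++ List.replicate n 1 ∈ sLang r ↔ r n m := by
  constructor
  · rintro ⟨m', n', h, he⟩
    have h0 := congrArg (List.count 0) he
    have h1 := congrArg (List.count 1) he
    simp [List.count_replicate] at h0 h1
    rw [h0, h1]; exact h
  · intro h
    exact ⟨m, n, h, rfl⟩

lemma bounded_L3 (r : ℕ → ℕ → ℕ → Prop) (k : ℕ) (hk : 3 ≤ k) : BoundedOfDegree k (L3 r) := by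
  obtain ⟨k, rfl⟩ := Nat.exists_eq_add_of_le' hk
  refine ⟨fun i => if i.val = 0 then [0] else if i.val = 1 then [1] else
    if i.val = 2 then [2] else [], ?_⟩
  rintro u ⟨hu, -⟩
  refine ⟨fun i => if i.val = 0 then u.count 0 else if i.val = 1 then u.count 1 else
    if i.val = 2 then u.count 2 else 0, ?_⟩
  rw [List.ofFn_succ, List.ofFn_succ, List.ofFn_succ]
  have : (List.ofFn fun i : Fin k => (List.replicate
      (if (i.succ.succ.succ : Fin (k + 3)).val = 0 then u.count 0 else
        if (i.succ.succ.succ : Fin (k + 3)).val = 1 then u.count 1 else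
        if (i.succ.succ.succ : Fin (k + 3)).val = 2 then u.count 2 else 0)
      (if (i.succ.succ.succ : Fin (k + 3)).val = 0 then [(0 : Fin 3)] else
        if (i.succ.succ.succ : Fin (k + 3)).val = 1 then [1] else
        if (i.succ.succ.succ : Fin (k + 3)).val = 2 then [2] else [])).flatten).flatten = [] := by
    simp
  rw [List.flatten_cons, List.flatten_cons, List.flatten_cons, this]
  have h2 : 2 % (k + 3) = 2 := Nat.mod_eq_of_lt (by omega)
  simpa [h2] using eq_of_sorted3 u hu

/-- erase all letters but `x` and `y` -/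
def ers (x y : Fin 3) (c : Fin 3) : List (Fin 2) :=
  if c = x then [0] else if c = y then [1] else []

lemma flatMap_ers (x y : Fin 3) (hxy : x < y) (w : List (Fin 3)) (hw : w.Pairwise (· ≤ ·)) :
    w.flatMap (ers x y) = List.replicate (w.count x) 0 ++ List.replicate (w.count y) 1 := by
  have h := eq_of_sorted3 w hw
  conv_lhs => rw [h]
  fin_cases x <;> fin_cases y <;> simp at hxy <;>
    simp [ers, List.flatMap_append, List.flatMap_replicate]

lemma L3_mem_cone (r : ℕ → ℕ → Prop) (x y x' y' : Fin 3) (hxy : x < y) (hxy' : x' < y')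
    (r3 : ℕ → ℕ → ℕ → Prop)
    (hr : ∀ c : Fin 3 → ℕ, r3 (c 0) (c 1) (c 2) ↔ r (c y) (c x) ∨ r (c y') (c x'))
    (h0 : r3 0 0 0 ↔ r 0 0) :
    L3 r3 ∈ cone (sLang r) (Fin 3) := by
  intro C hC hs
  obtain ⟨h1, h2, h3⟩ := hC
  have a1 := h2 (Fin 3 × Bool) (Fin 2)
    (fun z => if z.2 then ers x y z.1 else ers x' y' z.1) _ hs
  have a2 := h3 _ _ _ a1
    (chain_regular (fun a b : Fin 3 × Bool => a.1 ≤ b.1 ∧ a.2 = b.2))
  have a3 := h1 _ (Fin 3) (fun z => [z.1]) _ a2
  refine (congrArg (fun K : Language (Fin 3) => K ∈ C (Fin 3)) ?_).mpr a3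
  ext w
  have htr : IsTrans (Fin 3 × Bool) (fun a b : Fin 3 × Bool => a.1 ≤ b.1 ∧ a.2 = b.2) :=
    ⟨fun a b c hab hbc => ⟨hab.1.trans hbc.1, hab.2.trans hbc.2⟩⟩
  have hfm : ∀ (t : Bool) (w : List (Fin 3)), (w.map (fun c => (c, t))).flatMap
      (fun z : Fin 3 × Bool => if z.2 then ers x y z.1 else ers x' y' z.1) =
      w.flatMap (if t then ers x y else ers x' y') := by
    intro t w
    rw [List.flatMap_map]
    cases t <;> simp
  constructor
  · rintro ⟨hw, hw2⟩
    have hch : ∀ t : Bool, (w.map (fun c => (c, t))).IsChain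
        (fun a b : Fin 3 × Bool => a.1 ≤ b.1 ∧ a.2 = b.2) := by
      intro t
      rw [List.isChain_iff_pairwise, List.pairwise_map]
      simpa using hw
    rcases (hr (fun c => w.count c)).mp hw2 with h | h
    · refine ⟨w.map (fun c => (c, true)), ⟨?_, hch true⟩, ?_⟩
      · change List.flatMap _ _ ∈ sLang r
        rw [hfm]
        simp only [if_true]
        rw [flatMap_ers x y hxy w hw, mem_sLang]
        exact h
      · rw [List.flatMap_map]; simp
    · refine ⟨w.map (fun c => (c, false)), ⟨?_, hch false⟩, ?_⟩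
      · change List.flatMap _ _ ∈ sLang r
        rw [hfm]
        simp only [Bool.false_eq_true, if_false]
        rw [flatMap_ers x' y' hxy' w hw, mem_sLang]
        exact h
      · rw [List.flatMap_map]; simp
  · rintro ⟨z, ⟨hz1, hz2⟩, rfl⟩
    change List.flatMap _ _ ∈ sLang r at hz1
    change List.IsChain _ z at hz2
    rw [List.isChain_iff_pairwise] at hz2
    have hw : z.flatMap (fun z => [z.1]) = z.map Prod.fst := by
      clear hz1 hz2
      induction z with
      | nil => rfl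
      | cons a z ih => simp [ih]
    rw [hw]
    have hs : (z.map Prod.fst).Pairwise (· ≤ ·) := by
      rw [List.pairwise_map]
      exact hz2.imp (fun h => h.1)
    refine ⟨hs, ?_⟩
    rcases z with _ | ⟨a, z⟩
    · have : r 0 0 := (mem_sLang r 0 0).mp hz1
      simpa using h0.mpr this
    · have hz : a :: z = ((a :: z).map Prod.fst).map (fun c => (c, a.2)) := by
        rw [List.map_map]
        conv_lhs => rw [← List.map_id (a :: z)]
        apply List.map_congr_left
        intro b hb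
        rcases List.mem_cons.mp hb with rfl | hb
        · rfl
        · have := (List.rel_of_pairwise_cons hz2 hb).2
          ext <;> simp [this]
      rw [hz, hfm] at hz1
      apply (hr (fun c => ((a :: z).map Prod.fst).count c)).mpr
      cases ha : a.2
      · right
        rw [ha] at hz1
        simp only [Bool.false_eq_true, if_false] at hz1
        rwa [flatMap_ers x' y' hxy' _ hs, mem_sLang] at hz1
      · left
        rw [ha] at hz1
        simp only [if_true] at hz1
        rwa [flatMap_ers x y hxy _ hs, mem_sLang] at hz1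

lemma pump_sorted (x e y : List (Fin 3)) (hs : (x ++ e ++ y).Pairwise (· ≤ ·))
    (hc : (e ++ y).head? = y.head?) :
    ∃ (a : Fin 3) (s : ℕ), e = List.replicate s a ∧
      ∀ n, (x ++ pw e n ++ y).Pairwise (· ≤ ·) := by
  rcases e with _ | ⟨a, e⟩
  · refine ⟨0, 0, rfl, fun n => ?_⟩
    have : pw ([] : List (Fin 3)) n = [] := by simp [pw]
    rw [this]; exact hs
  · rcases y with _ | ⟨b, y⟩
    · simp at hc
    · have hab : a = b := by simpa using hc
      subst hab
      simp only [List.pairwise_append, List.pairwise_cons, List.mem_append, List.mem_cons] at hs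
      obtain ⟨⟨hx, ⟨ha, he⟩, hxe⟩, ⟨hay, hy⟩, hall⟩ := hs
      have hrep : a :: e = List.replicate (a :: e).length a := by
        rw [List.eq_replicate_iff]
        refine ⟨rfl, ?_⟩
        intro b hb
        rcases List.mem_cons.mp hb with rfl | hb
        · rfl
        · exact le_antisymm (hall b (Or.inr (Or.inr hb)) a (Or.inl rfl)) (ha b hb)
      refine ⟨a, _, hrep, fun n => ?_⟩
      rw [hrep, pw_replicate]
      simp only [List.pairwise_append, List.pairwise_cons, List.mem_append, List.mem_cons,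
        List.pairwise_replicate, List.mem_replicate]
      refine ⟨⟨hx, Or.inr le_rfl, ?_⟩, ⟨hay, hy⟩, ?_⟩
      · rintro c hc' d ⟨_, rfl⟩
        exact hxe c hc' _ (Or.inl rfl)
      · rintro c (hc' | ⟨_, rfl⟩) d hd
        · exact hall c (Or.inl hc') d hd
        · exact hall c (Or.inr (Or.inl rfl)) d hd

lemma L3_mem_phi (P : Set (ℕ × ℕ) → Prop) (hP : ∀ S S', S ⊆ S' → P S → P S')
    (r : ℕ → ℕ → ℕ → Prop)
    (hr : ∀ (c : Fin 3 → ℕ) (a b : Fin 3) (s t : ℕ),
      r (c 0 + (if a = 0 then s else 0) + (if b = 0 then t else 0))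
        (c 1 + (if a = 1 then s else 0) + (if b = 1 then t else 0))
        (c 2 + (if a = 2 then s else 0) + (if b = 2 then t else 0)) →
      P {p | r (c 0 + p.1 * (if a = 0 then s else 0) + p.2 * (if b = 0 then t else 0))
        (c 1 + p.1 * (if a = 1 then s else 0) + p.2 * (if b = 1 then t else 0))
        (c 2 + p.1 * (if a = 2 then s else 0) + p.2 * (if b = 2 then t else 0))}) :
    L3 r ∈ Phi P (Fin 3) := by
  refine ⟨Option (Fin 3), inferInstance, ?_⟩
  rintro w ⟨hw, hw2⟩
  refine ⟨fun y => (w.drop y.length).head?, ?_⟩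
  intro x0 e1 x1 e2 x2 he hc1 hc2
  have d1 : w.drop x0.length = e1 ++ (x1 ++ e2 ++ x2) := by
    rw [he]; simp only [List.append_assoc]; exact List.drop_left
  have d2 : w.drop (x0 ++ e1).length = x1 ++ e2 ++ x2 := by
    rw [he, List.append_assoc (x0 ++ e1), List.append_assoc (x0 ++ e1)]; exact List.drop_left
  have d3 : w.drop (x0 ++ e1 ++ x1).length = e2 ++ x2 := by
    rw [he, List.append_assoc (x0 ++ e1 ++ x1)]; exact List.drop_left
  have d4 : w.drop (x0 ++ e1 ++ x1 ++ e2).length = x2 := by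
    rw [he]; exact List.drop_left
  simp only [d1, d2, d3, d4] at hc1 hc2
  obtain ⟨a, s, hea, hs1⟩ := pump_sorted x0 e1 (x1 ++ e2 ++ x2)
    (by rw [he] at hw; simpa only [List.append_assoc] using hw) hc1
  obtain ⟨b, t, heb, -⟩ := pump_sorted (x0 ++ e1 ++ x1) e2 x2 (by rw [← he]; exact hw) hc2
  have hcnt : ∀ (c : Fin 3) (m n : ℕ), (x0 ++ pw e1 m ++ x1 ++ pw e2 n ++ x2).count c =
      (x0.count c + x1.count c + x2.count c) + m * (if a = c then s else 0) +
        n * (if b = c then t else 0) := by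
    intro c m n
    simp only [List.count_append, count_pw]
    rw [hea, heb]
    simp only [List.count_replicate, beq_iff_eq]
    ring
  have hcnt1 : ∀ c : Fin 3, w.count c =
      (x0.count c + x1.count c + x2.count c) + (if a = c then s else 0) +
        (if b = c then t else 0) := by
    intro c
    have := hcnt c 1 1
    simp only [pw_succ, pw_zero, List.append_nil, one_mul] at this
    rw [he, this]
  rw [hcnt1 0, hcnt1 1, hcnt1 2] at hw2
  refine hP _ _ ?_ (hr (fun c => x0.count c + x1.count c + x2.count c) a b s t hw2)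
  intro p hp
  refine ⟨?_, ?_⟩
  · obtain ⟨_, _, _, hs2⟩ := pump_sorted (x0 ++ pw e1 p.1 ++ x1) e2 x2
      (by simpa only [List.append_assoc] using hs1 p.1) hc2
    exact hs2 p.2
  · rw [hcnt 0, hcnt 1, hcnt 2]
    exact hp

lemma sLang_phi (P : Set (ℕ × ℕ) → Prop) (hP : ∀ S S', S ⊆ S' → P S → P S')
    (r : ℕ → ℕ → Prop) (h : sLang r ∈ Phi P (Fin 2)) :
    ∃ N : ℕ, ∀ m n : ℕ, N ≤ m → N ≤ n → r n m → ∃ p q m0 n0 : ℕ, 0 < p ∧ p ≤ N ∧ 0 < q ∧ q ≤ N ∧
      m = m0 + p ∧ n = n0 + q ∧ P {z | r (n0 + z.2 * q) (m0 + z.1 * p)} := by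
  classical
  obtain ⟨Cl, hCl, h⟩ := h
  have : Fintype Cl := Fintype.ofFinite Cl
  have pig : ∀ f : ℕ → Cl, ∃ i j, i < j ∧ j ≤ Fintype.card Cl ∧ f i = f j := by
    intro f
    obtain ⟨i, j, hne, hij⟩ := Fintype.exists_ne_map_eq_of_card_lt
      (fun i : Fin (Fintype.card Cl + 1) => f i.val) (by simp)
    rcases lt_or_gt_of_ne hne with hlt | hlt
    · exact ⟨i.val, j.val, hlt, Nat.lt_succ_iff.mp j.2, hij⟩
    · exact ⟨j.val, i.val, hlt, Nat.lt_succ_iff.mp i.2, hij.symm⟩
  refine ⟨Fintype.card Cl, fun m n hm hn hr => ?_⟩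
  obtain ⟨col, hcol⟩ := h _ ((mem_sLang r m n).mpr hr)
  obtain ⟨i, j, hij, hj, hf⟩ := pig (fun i => col (List.replicate i 0))
  obtain ⟨i', j', hij', hj', hf'⟩ :=
    pig (fun i => col (List.replicate m 0 ++ List.replicate i 1))
  obtain ⟨p, rfl⟩ := Nat.exists_eq_add_of_le hij.le
  obtain ⟨q, rfl⟩ := Nat.exists_eq_add_of_le hij'.le
  obtain ⟨u, rfl⟩ := Nat.exists_eq_add_of_le (hj.trans hm)
  obtain ⟨v, rfl⟩ := Nat.exists_eq_add_of_le (hj'.trans hn)
  have hS := hcol (List.replicate i 0) (List.replicate p 0)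
    (List.replicate u 0 ++ List.replicate i' 1) (List.replicate q 1) (List.replicate v 1)
    (by simp only [List.replicate_add, List.append_assoc])
    (by simpa only [List.replicate_add] using hf)
    (by simpa only [List.replicate_add, List.append_assoc] using hf')
  refine ⟨p, q, i + u, i' + v, by omega, by omega, by omega, by omega, by ring, by ring,
    hP _ _ ?_ hS⟩
  intro z hz
  have e : List.replicate i (0 : Fin 2) ++ pw (List.replicate p 0) z.1 ++
      (List.replicate u 0 ++ List.replicate i' 1) ++ pw (List.replicate q 1) z.2 ++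
      List.replicate v 1 = List.replicate (i + u + z.1 * p) 0 ++
        List.replicate (i' + v + z.2 * q) 1 := by
    rw [pw_replicate, pw_replicate, show i + u + z.1 * p = i + z.1 * p + u by ring,
      show i' + v + z.2 * q = i' + z.2 * q + v by ring]
    simp only [List.replicate_add, List.append_assoc]
  change _ ∈ sLang r at hz
  rw [e, mem_sLang] at hz
  exact hz

lemma not_minimal (P : Set (ℕ × ℕ) → Prop) (hP : ∀ S S', S ⊆ S' → P S → P S')
    (r : ℕ → ℕ → Prop) (r3 : ℕ → ℕ → ℕ → Prop) (k : ℕ) (hk : 3 ≤ k)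
    (h1 : L3 r3 ∈ cone (sLang r) (Fin 3)) (h2 : L3 r3 ∈ Phi P (Fin 3))
    (h3 : sLang r ∉ Phi P (Fin 2)) (h4 : ¬ (L3 r3).IsRegular) :
    ¬ MinimalForDegree (cone (sLang r)) k := by
  intro H
  rcases H (Fin 3) (L3 r3) h1 (bounded_L3 r3 k hk) with h | h
  · exact h4 h
  · have hs : sLang r ∈ cone (sLang r) (Fin 2) := fun C _ hC => hC
    rw [← h (Fin 2)] at hs
    exact h3 (hs (Phi P) (phi_isCone P hP) h2)

lemma not_regular {A : Type} (L : Language A) (x : ℕ → List A)
    (h : ∀ i j, i < j → ∃ y, ¬ (x i ++ y ∈ L ↔ x j ++ y ∈ L)) : ¬ L.IsRegular := by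
  intro hL
  have hf := hL.finite_range_leftQuotient
  apply Set.infinite_of_injective_forall_mem (f := fun i => L.leftQuotient (x i)) _ _ hf
  · intro i j hij
    by_contra hne
    rcases lt_or_gt_of_ne hne with hlt | hlt
    · obtain ⟨y, hy⟩ := h i j hlt
      apply hy
      change y ∈ L.leftQuotient (x i) ↔ y ∈ L.leftQuotient (x j)
      simp only at hij
      rw [hij]
    · obtain ⟨y, hy⟩ := h j i hlt
      apply hy
      change y ∈ L.leftQuotient (x j) ↔ y ∈ L.leftQuotient (x i)
      simp only at hij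
      rw [hij]
  · intro i
    exact ⟨x i, rfl⟩

theorem not_minimal_ne (k : ℕ) (hk : 3 ≤ k) :
    ¬ MinimalForDegree (cone (sLang (· ≠ ·))) k := by
  have hP : ∀ S S' : Set (ℕ × ℕ), S ⊆ S' → (∃ M, ∀ p : ℕ × ℕ, M ≤ p.1 → M ≤ p.2 → p ∈ S) →
      (∃ M, ∀ p : ℕ × ℕ, M ≤ p.1 → M ≤ p.2 → p ∈ S') := by
    rintro S S' hS ⟨M, hM⟩
    exact ⟨M, fun p h1 h2 => hS (hM p h1 h2)⟩
  refine not_minimal _ hP _ (fun i j k => j ≠ i ∨ k ≠ j) k hk ?_ ?_ ?_ ?_
  · exact L3_mem_cone _ 0 1 1 2 (by decide) (by decide) _ (fun c => Iff.rfl) (by simp)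
  · apply L3_mem_phi _ hP
    intro c a b s t h
    refine ⟨c 0 + c 1 + c 2 + 1, fun p h1 h2 => ?_⟩
    have hs : s = 0 ∨ p.1 ≤ p.1 * s := by
      rcases Nat.eq_zero_or_pos s with h | h
      · exact Or.inl h
      · exact Or.inr (Nat.le_mul_of_pos_right _ h)
    have ht : t = 0 ∨ p.2 ≤ p.2 * t := by
      rcases Nat.eq_zero_or_pos t with h | h
      · exact Or.inl h
      · exact Or.inr (Nat.le_mul_of_pos_right _ h)
    simp only [Set.mem_ofPred_eq]
    rcases hs with rfl | hs <;> rcases ht with rfl | ht <;>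
      fin_cases a <;> fin_cases b <;> simp at h ⊢ <;> omega
  · intro h
    obtain ⟨N, hN⟩ := sLang_phi _ hP _ h
    have hpos := Nat.factorial_pos N
    obtain ⟨p, q, m0, n0, hp, hpN, hq, hqN, hm, hn, M, hM⟩ :=
      hN N (N + N.factorial) le_rfl (by omega) (by omega)
    obtain ⟨d, hd⟩ := Nat.dvd_factorial hp hpN
    have := hM (1 + d + q * M, 1 + p * M) (by
      have := Nat.le_mul_of_pos_left M hq
      simp only; omega) (by
      have := Nat.le_mul_of_pos_left M hp
      simp only; omega)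
    simp only [Set.mem_ofPred_eq] at this
    apply this
    have e1 : n0 + (1 + p * M) * q = (n0 + q) + p * M * q := by ring
    have e2 : m0 + (1 + d + q * M) * p = (m0 + p) + p * d + p * M * q := by ring
    rw [e1, e2, ← hm, ← hn, ← hd]
  · apply not_regular _ (fun i => List.replicate i 0)
    intro i j hij
    refine ⟨List.replicate i 1 ++ List.replicate i 2, ?_⟩
    rw [← List.append_assoc, ← List.append_assoc, mem_L3, mem_L3]
    omega

theorem not_minimal_le (k : ℕ) (hk : 3 ≤ k) :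
    ¬ MinimalForDegree (cone (sLang (· ≤ ·))) k := by
  have hP : ∀ S S' : Set (ℕ × ℕ), S ⊆ S' →
      ((0, 1) ∈ S ∨ ∃ M, ∀ p : ℕ × ℕ, M ≤ p.1 → p ∈ S) →
      ((0, 1) ∈ S' ∨ ∃ M, ∀ p : ℕ × ℕ, M ≤ p.1 → p ∈ S') := by
    rintro S S' hS (h | ⟨M, hM⟩)
    · exact Or.inl (hS h)
    · exact Or.inr ⟨M, fun p h1 => hS (hM p h1)⟩
  refine not_minimal _ hP _ (fun i j k => j ≤ i ∨ k ≤ i) k hk ?_ ?_ ?_ ?_
  · exact L3_mem_cone _ 0 1 0 2 (by decide) (by decide) _ (fun c => Iff.rfl) (by simp)
  · apply L3_mem_phi _ hP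
    intro c a b s t h
    by_cases ha : a = 0 ∧ 0 < s
    · right
      obtain ⟨rfl, hs⟩ := ha
      refine ⟨c 1 + c 2, fun p h1 => ?_⟩
      have hs := Nat.le_mul_of_pos_right p.1 hs
      simp only [Set.mem_ofPred_eq]
      fin_cases b <;> simp at h ⊢ <;> omega
    · left
      simp only [Set.mem_ofPred_eq]
      fin_cases a <;> fin_cases b <;> simp at h ha ⊢ <;> omega
  · intro h
    obtain ⟨N, hN⟩ := sLang_phi _ hP _ h
    obtain ⟨p, q, m0, n0, hp, hpN, hq, hqN, hm, hn, hM | ⟨M, hM⟩⟩ :=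
      hN N N le_rfl le_rfl le_rfl
    · simp only [Set.mem_ofPred_eq] at hM
      omega
    · have := hM (M, m0 + M * p + 1) le_rfl
      simp only [Set.mem_ofPred_eq] at this
      have h2 := Nat.le_mul_of_pos_right (m0 + M * p + 1) hq
      omega
  · apply not_regular _ (fun i => List.replicate i 0)
    intro i j hij
    refine ⟨List.replicate (i + 1) 1 ++ List.replicate (i + 1) 2, ?_⟩
    rw [← List.append_assoc, ← List.append_assoc, mem_L3, mem_L3]
    omega

theorem not_minimal_ge (k : ℕ) (hk : 3 ≤ k) :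
    ¬ MinimalForDegree (cone (sLang (· ≥ ·))) k := by
  have hP : ∀ S S' : Set (ℕ × ℕ), S ⊆ S' →
      ((1, 0) ∈ S ∨ ∃ M, ∀ p : ℕ × ℕ, M ≤ p.2 → p ∈ S) →
      ((1, 0) ∈ S' ∨ ∃ M, ∀ p : ℕ × ℕ, M ≤ p.2 → p ∈ S') := by
    rintro S S' hS (h | ⟨M, hM⟩)
    · exact Or.inl (hS h)
    · exact Or.inr ⟨M, fun p h1 => hS (hM p h1)⟩
  refine not_minimal _ hP _ (fun i j k => k ≥ i ∨ k ≥ j) k hk ?_ ?_ ?_ ?_
  · exact L3_mem_cone _ 0 2 1 2 (by decide) (by decide) _ (fun c => Iff.rfl) (by simp)
  · apply L3_mem_phi _ hP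
    intro c a b s t h
    by_cases hb : b = 2 ∧ 0 < t
    · right
      obtain ⟨rfl, ht⟩ := hb
      refine ⟨c 0 + c 1, fun p h1 => ?_⟩
      have ht := Nat.le_mul_of_pos_right p.2 ht
      simp only [Set.mem_ofPred_eq]
      fin_cases a <;> simp at h ⊢ <;> omega
    · left
      simp only [Set.mem_ofPred_eq]
      fin_cases a <;> fin_cases b <;> simp at h hb ⊢ <;> omega
  · intro h
    obtain ⟨N, hN⟩ := sLang_phi _ hP _ h
    obtain ⟨p, q, m0, n0, hp, hpN, hq, hqN, hm, hn, hM | ⟨M, hM⟩⟩ :=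
      hN N N le_rfl le_rfl le_rfl
    · simp only [Set.mem_ofPred_eq] at hM
      omega
    · have := hM (n0 + M * q + 1, M) le_rfl
      simp only [Set.mem_ofPred_eq] at this
      have h2 := Nat.le_mul_of_pos_right (n0 + M * q + 1) hp
      omega
  · apply not_regular _ (fun i => List.replicate i 0 ++ List.replicate i 1)
    intro i j hij
    refine ⟨List.replicate i 2, ?_⟩
    rw [mem_L3, mem_L3]
    omega

theorem main (k : ℕ) (hk : 3 ≤ k) :
    ¬ MinimalForDegree (cone (sLang (· ≤ ·))) k ∧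
    ¬ MinimalForDegree (cone (sLang (· ≠ ·))) k ∧
    ¬ MinimalForDegree (cone (sLang (· ≥ ·))) k :=
  ⟨not_minimal_le k hk, not_minimal_ne k hk, not_minimal_ge k hk⟩

end Pool.Agent.P.MP_3a8f7c_lc
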