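import Pool.Agent.P.MP_3a8f7c_lc.Dich
import Pool.Agent.P.MP_3a8f7c_lc.Kleene
import Pool.Agent.P.MP_3a8f7c_lc.Main

set_option autoImplicit false

namespace Pool.Agent.P.MP_3a8f7c_lc

open Filter Nat Function

lemma cone_isCone {A : Type} [Finite A] (L : Language A) : IsCone (cone L) :=
  ⟨fun A' B _ _ h K hK C hC hL => hC.1 A' B h K (hK C hC hL),
    fun A' B _ _ h K hK C hC hL => hC.2.1 A' B h K (hK C hC hL),
    fun A' _ K R hK hR C hC hL => hC.2.2 A' K R (hK C hC hL) hR⟩

lemma self_mem_cone {A : Type} [Finite A] (L : Language A) : L ∈ cone L A := fun _ _ h => h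

lemma regular_mem_cone {A : Type} [Finite A] (L : Language A) (u : List A) (hu : u ∈ L)
    (B : Type) [Finite B] (R : Language B) (hR : R.IsRegular) : R ∈ cone L B := by
  obtain ⟨h1, h2, h3⟩ := cone_isCone L
  have a1 := h1 A A (fun _ => []) L (self_mem_cone L)
  have a2 := h2 B A (fun _ => []) _ a1
  have a3 := h3 B _ R a2 hR
  refine (congrArg (fun K : Language B => K ∈ cone L B) ?_).mpr a3
  ext w
  constructor
  · intro hw
    exact ⟨⟨u, hu, by rw [List.flatMap_eq_nil_iff.mpr fun _ _ => rfl,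
      List.flatMap_eq_nil_iff.mpr fun _ _ => rfl]⟩, hw⟩
  · exact fun hw => hw.2

/-- product of powers of words -/
def bigW {A : Type} {k : ℕ} (w : Fin k → List A) (x : Fin k → ℕ) : List A :=
  (List.ofFn fun i => (List.replicate (x i) (w i)).flatten).flatten

lemma bigW_succ {A : Type} {k : ℕ} (w : Fin (k + 1) → List A) (x : Fin (k + 1) → ℕ) :
    bigW w x = pw (w 0) (x 0) ++ bigW (fun i => w i.succ) (fun i => x i.succ) := by
  simp [bigW, pw, List.ofFn_succ]

lemma blocks_flatMap {A B : Type} (h : B → List A) (k : ℕ) : ∀ (a : Fin k → B) (x : Fin k → ℕ),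
    (blocks a x).flatMap h = bigW (fun i => h (a i)) x := by
  induction k with
  | zero => intro a x; simp [blocks, bigW]
  | succ k ih =>
    intro a x
    rw [blocks_succ, bigW_succ, List.flatMap_append, ih, List.flatMap_replicate]
    rfl

lemma pw_add {A : Type} (e : List A) (m n : ℕ) : pw e (m + n) = pw e m ++ pw e n := by
  unfold pw
  rw [List.replicate_add, List.flatten_append]

lemma pw_mul {A : Type} (e : List A) (m n : ℕ) : pw e (m * n) = pw (pw e n) m := by
  induction m with
  | zero => simp [pw_zero]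
  | succ m ih => rw [pw_succ, ← ih, ← pw_add]; congr 1; ring

lemma bigW_update {A : Type} (k : ℕ) : ∀ (w : Fin k → List A) (x : Fin k → ℕ) (l : Fin k),
    ∃ pre suf : List A, ∀ m, bigW w (update x l (x l + m)) = pre ++ pw (w l) m ++ suf := by
  induction k with
  | zero => intro w x l; exact l.elim0
  | succ k ih =>
    intro w x l
    refine Fin.cases ?_ (fun l => ?_) l
    · refine ⟨pw (w 0) (x 0), bigW (fun i => w i.succ) (fun i => x i.succ), fun m => ?_⟩
      rw [bigW_succ, update_self, pw_add]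
      congr 2
    · obtain ⟨pre, suf, h⟩ := ih (fun i => w i.succ) (fun i => x i.succ) l
      refine ⟨pw (w 0) (x 0) ++ pre, suf, fun m => ?_⟩
      rw [bigW_succ, update_of_ne (Fin.succ_ne_zero l).symm, List.append_assoc, List.append_assoc,
        ← List.append_assoc pre, ← h m]
      congr 2
      funext i
      by_cases hi : i = l
      · subst hi; simp
      · rw [update_of_ne hi, update_of_ne (fun h => hi (Fin.succ_injective _ h))]

lemma blocks_sorted {k : ℕ} (x : Fin k → ℕ) : (blocks id x).Pairwise (· ≤ ·) := by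
  unfold blocks
  rw [List.pairwise_flatten]
  refine ⟨?_, ?_⟩
  · intro l hl
    obtain ⟨i, rfl⟩ := List.mem_ofFn.mp hl
    simp [List.pairwise_replicate]
  · rw [List.pairwise_ofFn]
    intro i j hij a ha b hb
    rw [List.eq_of_mem_replicate ha, List.eq_of_mem_replicate hb]
    exact hij.le

lemma blocks_count {k : ℕ} (x : Fin k → ℕ) (i : Fin k) : (blocks id x).count i = x i := by
  unfold blocks
  rw [List.count_flatten, List.map_ofFn, List.sum_ofFn]
  simp [List.count_replicate]

lemma eq_blocks {k : ℕ} (u : List (Fin k)) (hu : u.Pairwise (· ≤ ·)) :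
    u = blocks id (fun i => u.count i) := by
  apply List.Perm.eq_of_pairwise' hu (blocks_sorted _)
  rw [List.perm_iff_count]
  intro a
  rw [blocks_count]

lemma count_regular {k : ℕ} (K : Set (Fin k → ℕ)) (n : ℕ)
    (hK : ∀ x x' : Fin k → ℕ, (∀ l, Eqv n (x l) (x' l)) → x ∈ K → x' ∈ K) :
    Language.IsRegular ({u | (fun i => u.count i) ∈ K} : Language (Fin k)) := by
  apply Language.IsRegular.of_finite_range_leftQuotient
  have hfin : (Set.pi Set.univ fun _ : Fin k => Set.Iio (n + n !)).Finite :=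
    Set.Finite.pi fun _ => Set.finite_Iio _
  refine (hfin.image (fun r : Fin k → ℕ =>
    ({y | (fun i => r i + y.count i) ∈ K} : Language (Fin k)))).subset ?_
  rintro _ ⟨u, rfl⟩
  choose r h1 h2 using fun i : Fin k => exists_rep n (u.count i)
  refine ⟨r, fun i _ => h1 i, ?_⟩
  ext y
  change (fun i => r i + y.count i) ∈ K ↔ (fun i => (u ++ y).count i) ∈ K
  simp only [List.count_append]
  exact ⟨hK _ _ fun i => (h2 i).symm.add (Eqv.refl _ _), hK _ _ fun i => (h2 i).add (Eqv.refl _ _)⟩

lemma regular_of_rec {A : Type} [Finite A] {k : ℕ} (w : Fin k → List A) (L : Language A)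
    (hb : ∀ u ∈ L, ∃ x, u = bigW w x) (n : ℕ)
    (hK : ∀ x x' : Fin k → ℕ, (∀ l, Eqv n (x l) (x' l)) → bigW w x ∈ L → bigW w x' ∈ L) :
    L.IsRegular := by
  have h1 := (chain_regular (fun a b : Fin k => a ≤ b)).inf
    (count_regular {x | bigW w x ∈ L} n hK)
  have h2 := regular_image w h1
  refine (congrArg Language.IsRegular ?_).mpr h2
  ext u
  constructor
  · intro hu
    obtain ⟨x, rfl⟩ := hb u hu
    refine ⟨blocks id x, ⟨?_, ?_⟩, blocks_flatMap w k id x⟩
    · exact List.isChain_iff_pairwise.mpr (blocks_sorted x)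
    · change bigW w (fun i => (blocks id x).count i) ∈ L
      simpa only [blocks_count] using hu
  · rintro ⟨v, ⟨h3, h4⟩, rfl⟩
    have h5 := eq_blocks v (List.isChain_iff_pairwise.mp h3)
    rw [h5, blocks_flatMap]
    exact h4

/-- the control automaton -/
def ctrl (S : Set ℕ) [DecidablePred (· ∈ S)] (N : ℕ) : DFA (Fin 3 ⊕ Fin N) (Fin 4) where
  step q a :=
    if q = 0 then (match a with
      | Sum.inl c => if c = 0 then 1 else 3
      | Sum.inr i => if i.val ∈ S then 2 else 3)
    else if q = 1 then (match a with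
      | Sum.inl c => if c = 1 then 1 else if c = 2 then 2 else 3
      | Sum.inr _ => 3)
    else 3
  start := 0
  accept := {2}

lemma ctrl_dead (S : Set ℕ) [DecidablePred (· ∈ S)] (N : ℕ) (u : List (Fin 3 ⊕ Fin N)) :
    (ctrl S N).evalFrom 3 u = 3 := by
  induction u with
  | nil => rfl
  | cons a u ih => exact ih

lemma ctrl_two (S : Set ℕ) [DecidablePred (· ∈ S)] (N : ℕ) (u : List (Fin 3 ⊕ Fin N))
    (h : (ctrl S N).evalFrom 2 u = 2) : u = [] := by
  rcases u with _ | ⟨a, u⟩
  · rfl
  · have : (ctrl S N).evalFrom 2 (a :: u) = 3 := ctrl_dead S N u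
    rw [this] at h
    exact absurd h (by decide)

lemma ctrl_one (S : Set ℕ) [DecidablePred (· ∈ S)] (N : ℕ) (u : List (Fin 3 ⊕ Fin N))
    (h : (ctrl S N).evalFrom 1 u = 2) : ∃ t, u = List.replicate t (Sum.inl 1) ++ [Sum.inl 2] := by
  induction u with
  | nil => exact absurd (show (1 : Fin 4) = 2 from h) (by decide)
  | cons a u ih =>
    rcases a with c | i
    · fin_cases c
      · have : (ctrl S N).evalFrom 1 (Sum.inl 0 :: u) = 3 := ctrl_dead S N u
        exact absurd (this.symm.trans h) (by decide)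
      · obtain ⟨t, rfl⟩ := ih h
        exact ⟨t + 1, rfl⟩
      · have := ctrl_two S N u h
        subst this
        exact ⟨0, rfl⟩
    · have : (ctrl S N).evalFrom 1 (Sum.inr i :: u) = 3 := ctrl_dead S N u
      exact absurd (this.symm.trans h) (by decide)

lemma ctrl_one' (S : Set ℕ) [DecidablePred (· ∈ S)] (N t : ℕ) :
    (ctrl S N).evalFrom 1 (List.replicate t (Sum.inl 1) ++ [Sum.inl 2]) = 2 := by
  induction t with
  | zero => rfl
  | succ t ih => exact ih

lemma mem_ctrl (S : Set ℕ) [DecidablePred (· ∈ S)] (N : ℕ) (u : List (Fin 3 ⊕ Fin N)) :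
    u ∈ (ctrl S N).accepts ↔ (∃ t, u = Sum.inl 0 :: (List.replicate t (Sum.inl 1) ++ [Sum.inl 2])) ∨
      ∃ i : Fin N, i.val ∈ S ∧ u = [Sum.inr i] := by
  change (ctrl S N).evalFrom 0 u = 2 ↔ _
  constructor
  · intro h
    rcases u with _ | ⟨c | i, u⟩
    · exact absurd (show (0 : Fin 4) = 2 from h) (by decide)
    · fin_cases c
      · obtain ⟨t, rfl⟩ := ctrl_one S N u h
        exact Or.inl ⟨t, rfl⟩
      · have : (ctrl S N).evalFrom 0 (Sum.inl 1 :: u) = 3 := ctrl_dead S N u
        exact absurd (this.symm.trans h) (by decide)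
      · have : (ctrl S N).evalFrom 0 (Sum.inl 2 :: u) = 3 := ctrl_dead S N u
        exact absurd (this.symm.trans h) (by decide)
    · by_cases hi : i.val ∈ S
      · have e : (ctrl S N).step 0 (Sum.inr i) = 2 := by simp [ctrl, hi]
        rw [DFA.evalFrom_cons, e] at h
        rw [ctrl_two S N u h]
        exact Or.inr ⟨i, hi, rfl⟩
      · have e : (ctrl S N).step 0 (Sum.inr i) = 3 := by simp [ctrl, hi]
        rw [DFA.evalFrom_cons, e, ctrl_dead] at h
        exact absurd h (by decide)
  · rintro (⟨t, rfl⟩ | ⟨i, hi, rfl⟩)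
    · exact ctrl_one' S N t
    · have e : (ctrl S N).step 0 (Sum.inr i) = 2 := by simp [ctrl, hi]
      rw [DFA.evalFrom_cons, e]
      rfl

lemma gen_mem_cone {A : Type} [Finite A] {k : ℕ} (w : Fin k → List A) (L : Language A)
    (hG : Gen {x | bigW w x ∈ L}) : lenLang SS Unit ∈ cone L Unit := by
  classical
  obtain ⟨x, l, P, Q, s, N, hx, h1, h2⟩ := hG
  obtain ⟨pre, suf, hps⟩ := bigW_update k w x l
  obtain ⟨c1, c2, c3⟩ := cone_isCone L
  let h : Fin 3 ⊕ Fin N → List A := fun a => match a with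
    | Sum.inl c => if c = 0 then pre else if c = 1 then pw (w l) P else suf
    | Sum.inr _ => bigW w x
  let g : Fin 3 ⊕ Fin N → List Unit := fun a => match a with
    | Sum.inl c => if c = 0 then List.replicate s () else if c = 1 then List.replicate Q () else []
    | Sum.inr i => List.replicate i.val ()
  have a1 := c2 _ A h L (self_mem_cone L)
  have a2 := c3 _ _ _ a1 ⟨Fin 4, inferInstance, ctrl SS N, rfl⟩
  have a3 := c1 _ Unit g _ a2
  refine (congrArg (fun K : Language Unit => K ∈ cone L Unit) ?_).mpr a3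
  have eh : ∀ t, (Sum.inl 0 :: (List.replicate t (Sum.inl 1) ++ [Sum.inl 2]) :
      List (Fin 3 ⊕ Fin N)).flatMap h = bigW w (update x l (x l + t * P)) := by
    intro t
    rw [hps, pw_mul]
    simp [h, List.flatMap_replicate, pw]
  have eg : ∀ t, ((Sum.inl 0 :: (List.replicate t (Sum.inl 1) ++ [Sum.inl 2]) :
      List (Fin 3 ⊕ Fin N)).flatMap g).length = s + t * Q := by
    intro t
    simp [g, List.flatMap_replicate]
  have hlen : ∀ u v : List Unit, u.length = v.length → u = v := by
    intro u v huv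
    exact List.ext_getElem huv fun _ _ _ => rfl
  ext u
  constructor
  · intro hu
    change u.length ∈ SS at hu
    by_cases hN : u.length < N
    · refine ⟨[Sum.inr ⟨u.length, hN⟩], ⟨?_, (mem_ctrl SS N _).mpr (Or.inr ⟨_, hu, rfl⟩)⟩, ?_⟩
      · change List.flatMap h _ ∈ L
        simpa [h] using hx
      · apply hlen; simp [g]
    · obtain ⟨t, ht⟩ := h2 _ hu (not_lt.mp hN)
      refine ⟨_, ⟨?_, (mem_ctrl SS N _).mpr (Or.inl ⟨t, rfl⟩)⟩, ?_⟩
      · change List.flatMap h _ ∈ L
        rw [eh]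
        exact (h1 t).mpr (ht ▸ hu)
      · apply hlen; rw [eg, ht]
  · rintro ⟨v, ⟨hv1, hv2⟩, rfl⟩
    change (v.flatMap g).length ∈ SS
    rcases (mem_ctrl SS N v).mp hv2 with ⟨t, rfl⟩ | ⟨i, hi, rfl⟩
    · change List.flatMap h _ ∈ L at hv1
      rw [eh] at hv1
      rw [eg]
      exact (h1 t).mp hv1
    · simpa [g] using hi

lemma lenLang_not_regular : ¬ (lenLang SS Unit).IsRegular := by
  apply not_regular _ (fun i => List.replicate i ())
  intro i j hij
  obtain ⟨s, hs, hle⟩ := SS_large (TT (j - i + 1) + i)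
  refine ⟨List.replicate (s - i) (), ?_⟩
  change ¬ (List.length _ ∈ SS ↔ List.length _ ∈ SS)
  simp only [List.length_append, List.length_replicate]
  rw [show i + (s - i) = s by omega, show j + (s - i) = s + (j - i) by omega]
  intro h
  have h1 := (hs (j - i + 1) (by omega)).uniq ((h.mp hs) (j - i + 1) (by omega))
  have h2 := (Nat.modEq_iff_dvd' (by omega)).mp h1
  have h3 := Nat.le_of_dvd (by omega) h2
  have h4 := Nat.self_le_factorial (j - i + 1)
  omega

theorem minimal (k : ℕ) (hk : 1 ≤ k) : MinimalForDegree (cone (lenLang SS Unit)) k := by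
  obtain ⟨k, rfl⟩ : ∃ k', k = k' + 1 := ⟨k - 1, by omega⟩
  rintro A _ L hL ⟨w, hw⟩
  have h1 : L ∈ DD SS A := hL _ (dd_isCone SS) (lenLang_mem_dd SS Unit)
  have h2 := (dd_isCone SS).2.1 (Fin (k + 1)) A w L h1
  obtain ⟨𝒞, hf, hl, h3⟩ := dd_components h2 k id
  have e : KK 𝒞 = {x | bigW w x ∈ L} := by
    ext x
    have e2 : (blocks id x).flatMap w = bigW w x := blocks_flatMap w (k + 1) id x
    rw [Set.mem_ofPred_eq, ← e2]
    exact (h3 x).symm
  rcases dichotomy hf hl with hG | ⟨n, hn⟩
  · right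
    rw [e] at hG
    have h4 := gen_mem_cone w L hG
    intro B _
    ext K
    exact ⟨fun hK C hC hS => hK C hC (hL C hC hS), fun hK C hC hS => hK C hC (h4 C hC hS)⟩
  · left
    rw [e] at hn
    exact regular_of_rec w L hw n hn

theorem main2 : ∃ L : Language Unit, ¬ L.IsRegular ∧ BoundedOfDegree 1 L ∧ IsCone (cone L) ∧
    L ∈ cone L Unit ∧ (∀ (B : Type) [Finite B] (R : Language B), R.IsRegular → R ∈ cone L B) ∧
    ∀ k : ℕ, 1 ≤ k → MinimalForDegree (cone L) k := by
  refine ⟨lenLang SS Unit, lenLang_not_regular, ⟨fun _ => [()], fun u _ => ⟨fun _ => u.length, ?_⟩⟩,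
    cone_isCone _, self_mem_cone _, ?_, minimal⟩
  · exact List.ext_getElem (by simp) fun _ _ _ => rfl
  · obtain ⟨s, hs, -⟩ := SS_large 0
    exact regular_mem_cone _ (List.replicate s ()) (by
      change List.length _ ∈ SS
      rwa [List.length_replicate])

end Pool.Agent.P.MP_3a8f7c_lc
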