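import Pool.Agent.P.MP_3a8f7c_lc.Defs

set_option autoImplicit false

namespace Pool.Agent.P.MP_3a8f7c_lc

/-- power of a word -/
def pw {A : Type} (e : List A) (n : ℕ) : List A := (List.replicate n e).flatten

lemma pw_zero {A : Type} (e : List A) : pw e 0 = [] := by simp [pw]

lemma pw_succ {A : Type} (e : List A) (n : ℕ) : pw e (n + 1) = e ++ pw e n := by
  simp [pw, List.replicate_succ]

lemma pw_conj {A : Type} (a ρ e : List A) (h : a ++ ρ = ρ ++ e) (n : ℕ) :
    pw a n ++ ρ = ρ ++ pw e n := by
  induction n with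
  | zero => simp [pw_zero]
  | succ n ih => rw [pw_succ, pw_succ, List.append_assoc, ih, ← List.append_assoc, h,
      List.append_assoc]

lemma flatMap_pw {A B : Type} (h : A → List B) (e : List A) (n : ℕ) :
    (pw e n).flatMap h = pw (e.flatMap h) n := by
  induction n with
  | zero => simp [pw_zero]
  | succ n ih => rw [pw_succ, pw_succ, List.flatMap_append, ih]

lemma evalFrom_pw {A σ : Type} (M : DFA A σ) (s : σ) (e : List A) (h : M.evalFrom s e = s)
    (n : ℕ) : M.evalFrom s (pw e n) = s := by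
  induction n with
  | zero => simp [pw_zero]
  | succ n ih => rw [pw_succ, DFA.evalFrom_of_append, h, ih]

lemma count_pw {A : Type} [DecidableEq A] (c : A) (e : List A) (n : ℕ) :
    (pw e n).count c = n * e.count c := by
  induction n with
  | zero => simp [pw_zero]
  | succ n ih => rw [pw_succ, List.count_append, ih]; ring

lemma pw_replicate {A : Type} (a : A) (s n : ℕ) :
    pw (List.replicate s a) n = List.replicate (n * s) a := by
  induction n with
  | zero => simp [pw_zero]
  | succ n ih => rw [pw_succ, ih, ← List.replicate_add]; congr 1; ring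

/-- the two-loop pumping invariant -/
def Phi (P : Set (ℕ × ℕ) → Prop) (A : Type) [Finite A] : Set (Language A) :=
  {K | ∃ (Cl : Type) (_ : Finite Cl), ∀ w ∈ K, ∃ col : List A → Cl,
    ∀ x0 e1 x1 e2 x2 : List A, w = x0 ++ e1 ++ x1 ++ e2 ++ x2 →
      col x0 = col (x0 ++ e1) → col (x0 ++ e1 ++ x1) = col (x0 ++ e1 ++ x1 ++ e2) →
      P {p | x0 ++ pw e1 p.1 ++ x1 ++ pw e2 p.2 ++ x2 ∈ K}}

lemma exists_cut {A B : Type} [Finite A] (h : A → List B) :
    ∃ M : ℕ, ∀ u : List A, ∃ n : ℕ → ℕ, Monotone n ∧ ∀ m, m ≤ (u.flatMap h).length →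
      ((u.take (n m)).flatMap h).length ≤ m ∧ m ≤ ((u.take (n m)).flatMap h).length + M := by
  classical
  obtain ⟨M, hM⟩ := (Set.finite_range (fun a => (h a).length)).bddAbove
  refine ⟨M, fun u => ⟨fun m =>
    Nat.findGreatest (fun n => ((u.take n).flatMap h).length ≤ m) u.length, ?_, ?_⟩⟩
  · intro m m' hmm
    apply Nat.findGreatest_mono_left
    intro n hn
    exact le_trans hn hmm
  · intro m hm
    beta_reduce
    set n := Nat.findGreatest (fun n => ((u.take n).flatMap h).length ≤ m) u.length with hn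
    have h1 : ((u.take n).flatMap h).length ≤ m := by
      have := Nat.findGreatest_spec (P := fun n => ((u.take n).flatMap h).length ≤ m)
        (Nat.zero_le u.length) (by simp)
      exact this
    refine ⟨h1, ?_⟩
    have hle : n ≤ u.length := Nat.findGreatest_le _
    rcases hle.lt_or_eq with hlt | heq
    · have h2 := Nat.findGreatest_is_greatest
        (P := fun n => ((u.take n).flatMap h).length ≤ m) (Nat.lt_succ_self n) hlt
      rw [List.take_succ_eq_append_getElem hlt, List.flatMap_append, List.length_append] at h2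
      have h3 : (h u[n]).length ≤ M := hM ⟨u[n], rfl⟩
      simp only [List.flatMap_cons, List.flatMap_nil, List.append_nil] at h2
      omega
    · rw [heq, List.take_length]
      omega

lemma cut_spec {A B : Type} (h : A → List B) (u : List A) (y r : List B) (n M : ℕ)
    (hy : u.flatMap h = y ++ r) (h1 : ((u.take n).flatMap h).length ≤ y.length)
    (h2 : y.length ≤ ((u.take n).flatMap h).length + M) :
    y = (u.take n).flatMap h ++ (y.drop ((u.take n).flatMap h).length).take M := by
  have hp : (u.take n).flatMap h <+: u.flatMap h := by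
    conv_rhs => rw [← List.take_append_drop n u, List.flatMap_append]
    exact List.prefix_append _ _
  have hq : y <+: u.flatMap h := by rw [hy]; exact List.prefix_append _ _
  have hr := List.prefix_of_prefix_length_le hp hq h1
  have h3 : (y.drop ((u.take n).flatMap h).length).take M =
      y.drop ((u.take n).flatMap h).length :=
    List.take_of_length_le (by rw [List.length_drop]; omega)
  rw [h3]
  exact (List.prefix_iff_eq_append.mp hr).symm

theorem phi_isCone (P : Set (ℕ × ℕ) → Prop) (hP : ∀ S S', S ⊆ S' → P S → P S') :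
    IsCone (Phi P) := by
  refine ⟨?_, ?_, ?_⟩
  · intro A B _ _ h L hL
    obtain ⟨Cl, hCl, hL⟩ := hL
    obtain ⟨M, hM⟩ := exists_cut h
    have : Finite {l : List B // l.length ≤ M} := (List.finite_length_le B M).to_subtype
    refine ⟨Cl × {l : List B // l.length ≤ M}, inferInstance, ?_⟩
    rintro w ⟨u, hu, rfl⟩
    obtain ⟨col, hcol⟩ := hL u hu
    obtain ⟨n, hmono, hn⟩ := hM u
    refine ⟨fun y => (col (u.take (n y.length)),
      ⟨(y.drop ((u.take (n y.length)).flatMap h).length).take M, List.length_take_le _ _⟩), ?_⟩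
    intro x0 e1 x1 e2 x2 hw hc1 hc2
    have hlen := congrArg List.length hw
    simp only [List.length_append] at hlen
    have key : ∀ y r : List B, u.flatMap h = y ++ r →
        y = (u.take (n y.length)).flatMap h ++
          (y.drop ((u.take (n y.length)).flatMap h).length).take M := by
      intro y r hy
      have hl : y.length ≤ (u.flatMap h).length := by rw [hy]; simp
      exact cut_spec h u y r _ M hy (hn _ hl).1 (hn _ hl).2
    have k1 := key x0 (e1 ++ x1 ++ e2 ++ x2) (by rw [hw]; simp)
    have k2 := key (x0 ++ e1) (x1 ++ e2 ++ x2) (by rw [hw]; simp)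
    have k3 := key (x0 ++ e1 ++ x1) (e2 ++ x2) (by rw [hw]; simp)
    have k4 := key (x0 ++ e1 ++ x1 ++ e2) x2 hw
    simp only [Prod.mk.injEq, Subtype.mk.injEq] at hc1 hc2
    obtain ⟨hc1a, hc1b⟩ := hc1
    obtain ⟨hc2a, hc2b⟩ := hc2
    rw [← hc1b] at k2
    rw [← hc2b] at k4
    set ρ := (x0.drop ((u.take (n x0.length)).flatMap h).length).take M
    set σ := ((x0 ++ e1 ++ x1).drop
      ((u.take (n (x0 ++ e1 ++ x1).length)).flatMap h).length).take M
    obtain ⟨U, hU⟩ := List.take_prefix_take_left (l := u)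
      (hmono (show x0.length ≤ (x0 ++ e1).length by simp))
    obtain ⟨X, hX⟩ := List.take_prefix_take_left (l := u)
      (hmono (show (x0 ++ e1).length ≤ (x0 ++ e1 ++ x1).length by simp))
    obtain ⟨V, hV⟩ := List.take_prefix_take_left (l := u)
      (hmono (show (x0 ++ e1 ++ x1).length ≤ (x0 ++ e1 ++ x1 ++ e2).length by simp))
    have hZ := List.take_append_drop (n (x0 ++ e1 ++ x1 ++ e2).length) u
    set Z := u.drop (n (x0 ++ e1 ++ x1 ++ e2).length)
    set u1 := u.take (n x0.length)
    rw [← hV] at hZ k4 hc2a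
    rw [← hX] at hZ k4 k3 hc2a
    rw [← hU] at hZ k4 k3 k2 hc2a hc1a
    have hS := hcol u1 U X V Z hZ.symm hc1a hc2a
    refine hP _ _ ?_ hS
    intro p hp
    refine ⟨_, hp, ?_⟩
    simp only [List.flatMap_append] at k2 k3 k4 ⊢
    have e1c : U.flatMap h ++ ρ = ρ ++ e1 := by
      have : u1.flatMap h ++ (U.flatMap h ++ ρ) = u1.flatMap h ++ (ρ ++ e1) := by
        rw [← List.append_assoc, ← k2, ← List.append_assoc, ← k1]
      exact List.append_cancel_left this
    have e2c : X.flatMap h ++ σ = ρ ++ x1 := by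
      have : (u1.flatMap h ++ U.flatMap h) ++ (X.flatMap h ++ σ) =
          (u1.flatMap h ++ U.flatMap h) ++ (ρ ++ x1) := by
        rw [← List.append_assoc, ← k3, ← List.append_assoc, ← k2]
      exact List.append_cancel_left this
    have e3c : V.flatMap h ++ σ = σ ++ e2 := by
      have : (u1.flatMap h ++ U.flatMap h ++ X.flatMap h) ++ (V.flatMap h ++ σ) =
          (u1.flatMap h ++ U.flatMap h ++ X.flatMap h) ++ (σ ++ e2) := by
        rw [← List.append_assoc, ← k4, ← List.append_assoc, ← k3]
      exact List.append_cancel_left this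
    have e4c : Z.flatMap h = σ ++ x2 := by
      have : (u1.flatMap h ++ U.flatMap h ++ X.flatMap h ++ V.flatMap h) ++ Z.flatMap h =
          (u1.flatMap h ++ U.flatMap h ++ X.flatMap h ++ V.flatMap h) ++ (σ ++ x2) := by
        rw [← List.append_assoc, ← k4, ← hw, ← hZ]
        simp only [List.flatMap_append]
      exact List.append_cancel_left this
    rw [flatMap_pw, flatMap_pw, e4c]
    calc u1.flatMap h ++ pw (U.flatMap h) p.1 ++ X.flatMap h ++ pw (V.flatMap h) p.2 ++ (σ ++ x2)
        = u1.flatMap h ++ pw (U.flatMap h) p.1 ++ X.flatMap h ++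
            (pw (V.flatMap h) p.2 ++ σ) ++ x2 := by simp only [List.append_assoc]
      _ = u1.flatMap h ++ pw (U.flatMap h) p.1 ++ (X.flatMap h ++ σ) ++ pw e2 p.2 ++ x2 := by
          rw [pw_conj _ _ _ e3c]; simp only [List.append_assoc]
      _ = u1.flatMap h ++ (pw (U.flatMap h) p.1 ++ ρ) ++ x1 ++ pw e2 p.2 ++ x2 := by
          rw [e2c]; simp only [List.append_assoc]
      _ = (u1.flatMap h ++ ρ) ++ pw e1 p.1 ++ x1 ++ pw e2 p.2 ++ x2 := by
          rw [pw_conj _ _ _ e1c]; simp only [List.append_assoc]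
      _ = x0 ++ pw e1 p.1 ++ x1 ++ pw e2 p.2 ++ x2 := by rw [← k1]
  · intro A B _ _ h L hL
    obtain ⟨Cl, hCl, hL⟩ := hL
    refine ⟨Cl, hCl, ?_⟩
    intro u hu
    obtain ⟨col, hcol⟩ := hL _ hu
    refine ⟨fun y => col (y.flatMap h), ?_⟩
    intro x0 e1 x1 e2 x2 hw hc1 hc2
    simp only [List.flatMap_append] at hc1 hc2
    have hS := hcol (x0.flatMap h) (e1.flatMap h) (x1.flatMap h) (e2.flatMap h) (x2.flatMap h)
      (by rw [hw]; simp only [List.flatMap_append]) hc1 hc2
    refine hP _ _ ?_ hS
    intro p hp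
    change List.flatMap h _ ∈ L
    simp only [List.flatMap_append, flatMap_pw]
    exact hp
  · intro A _ L R hL hR
    obtain ⟨Cl, hCl, hL⟩ := hL
    obtain ⟨σ, hσ, M, rfl⟩ := hR
    refine ⟨Cl × σ, inferInstance, ?_⟩
    rintro w ⟨hw1, hw2⟩
    obtain ⟨col, hcol⟩ := hL _ hw1
    refine ⟨fun y => (col y, M.eval y), ?_⟩
    intro x0 e1 x1 e2 x2 hw hc1 hc2
    simp only [Prod.mk.injEq] at hc1 hc2
    have hS := hcol x0 e1 x1 e2 x2 hw hc1.1 hc2.1
    refine hP _ _ ?_ hS
    intro p hp
    refine ⟨hp, ?_⟩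
    have a1 : M.evalFrom (M.eval x0) e1 = M.eval x0 := by
      have := hc1.2
      simp only [DFA.eval, DFA.evalFrom_of_append] at this ⊢
      exact this.symm
    have a2 : M.evalFrom (M.eval (x0 ++ e1 ++ x1)) e2 = M.eval (x0 ++ e1 ++ x1) := by
      have := hc2.2
      simp only [DFA.eval, DFA.evalFrom_of_append] at this ⊢
      exact this.symm
    have b1 := evalFrom_pw M _ _ a1 p.1
    have b2 := evalFrom_pw M _ _ a2 p.2
    change M.eval _ ∈ M.accept at hw2
    change M.eval _ ∈ M.accept
    rw [hw] at hw2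
    simp only [DFA.eval, DFA.evalFrom_of_append] at hw2 a1 a2 b1 b2 ⊢
    rw [b1]
    rw [a1] at hw2 a2 b2
    rw [b2]
    rw [a2] at hw2
    exact hw2

end Pool.Agent.P.MP_3a8f7c_lc
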